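import Pool.Agent.W976.LT.Place

/-!
# Lattice trees: basics of addresses, trees, parts of objects
-/

set_option autoImplicit false

namespace Pool.Agent.W976.LT

open Pool.Agent.W955.LT

theorem mem_words {q m : ℕ} {w : List ℕ} : w ∈ words q m ↔ w.length ≤ m ∧ ∀ d ∈ w, d < q := by
  induction m generalizing w with
  | zero =>
    unfold words
    rw [Finset.mem_singleton]
    constructor
    · rintro rfl; simp
    · rintro ⟨h, _⟩; exact List.length_eq_zero_iff.1 (by omega)
  | succ m ih =>
    unfold words
    rw [Finset.mem_insert, Finset.mem_image]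
    constructor
    · rintro (rfl | ⟨p, hp, rfl⟩)
      · simp
      · rw [Finset.mem_product, Finset.mem_range, ih] at hp
        refine ⟨by simp only [List.length_cons]; omega, ?_⟩
        intro d hd
        rcases List.mem_cons.1 hd with rfl | hd
        · exact hp.1
        · exact hp.2.2 d hd
    · rintro ⟨h1, h2⟩
      cases w with
      | nil => exact Or.inl rfl
      | cons d w =>
        right
        refine ⟨(d, w), ?_, rfl⟩
        rw [Finset.mem_product, Finset.mem_range, ih]
        refine ⟨h2 d List.mem_cons_self, ?_, fun e he => h2 e (List.mem_cons_of_mem _ he)⟩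
        simp only [List.length_cons] at h1
        show w.length ≤ m
        omega

theorem suffix_mem {k : Kind} {A : Finset (List ℕ)} (h : Tr k A) {v w : List ℕ} (hw : w ∈ A)
    (hv : v <:+ w) : v ∈ A := by
  induction w with
  | nil => rw [List.suffix_nil] at hv; rw [hv]; exact hw
  | cons d w ih =>
    rcases List.suffix_cons_iff.1 hv with h1 | h1
    · rw [h1]; exact hw
    · exact ih (h.tail d w hw) h1

theorem length_lt {k : Kind} {A : Finset (List ℕ)} (h : Tr k A) {w : List ℕ} (hw : w ∈ A) :
    w.length < A.card := by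
  have h1 : (Finset.range (w.length + 1)).card ≤ A.card := by
    refine Finset.card_le_card_of_injOn (fun i => w.drop i) ?_ ?_
    · intro i _
      exact suffix_mem h hw (List.drop_suffix _ _)
    · intro i hi j hj hij
      have h2 := congrArg List.length hij
      simp only [List.length_drop] at h2
      have h3 := Finset.mem_range.1 (Finset.mem_coe.1 hi)
      have h4 := Finset.mem_range.1 (Finset.mem_coe.1 hj)
      omega
  rw [Finset.card_range] at h1
  omega

theorem letters {k : Kind} {A : Finset (List ℕ)} (h : Tr k A) {w : List ℕ} (hw : w ∈ A) :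
    ∀ d ∈ w, d < nd k := by
  induction w with
  | nil => intro d hd; simp at hd
  | cons e w ih =>
    intro d hd
    rcases List.mem_cons.1 hd with rfl | hd
    · exact h.dir _ _ hw
    · exact ih (h.tail e w hw) d hd

open Classical in
theorem trees_iff (k : Kind) (m : ℕ) (A : Finset (List ℕ)) :
    A ∈ trees k m ↔ Tr k A ∧ A.card = m := by
  unfold trees
  rw [Finset.mem_filter, Finset.mem_powerset]
  constructor
  · exact fun h => h.2
  · rintro ⟨h1, h2⟩
    refine ⟨?_, h1, h2⟩
    intro w hw
    rw [mem_words]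
    exact ⟨by have := length_lt h1 hw; omega, letters h1 hw⟩

open Classical in
theorem trees_main : S_trees := by
  refine ⟨trees_iff, ?_⟩
  intro k m o
  unfold objs
  rw [Finset.mem_filter, Finset.mem_product, trees_iff, Finset.mem_powerset]
  constructor
  · exact fun h => ⟨h.2, h.1.1.2⟩
  · rintro ⟨h1, h2⟩
    refine ⟨⟨⟨h1.tr, h2⟩, ?_⟩, h1⟩
    have h3 := (trees_iff k m o.1).2 ⟨h1.tr, h2⟩
    unfold trees at h3
    exact h1.sub.trans (Finset.mem_powerset.1 (Finset.mem_filter.1 h3).1)

theorem sgn_mul (k : Kind) (a b : ℤ × ℤ) : sgn k (mul k a b) = sgn k a * sgn k b := by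
  cases k
  · rfl
  · simp only [sgn, mul]
    split_ifs <;> first | rfl | (exfalso; omega)
  · rfl

theorem mul_assoc' (k : Kind) (a b c : ℤ × ℤ) :
    mul k (mul k a b) c = mul k a (mul k b c) := by
  have h := sgn_mul k a b
  refine Prod.ext ?_ ?_
  · show (mul k a b).1 + sgn k (mul k a b) * c.1 = a.1 + sgn k a * (b.1 + sgn k b * c.1)
    rw [h]
    show a.1 + sgn k a * b.1 + _ = _
    ring
  · show (mul k a b).2 + sgn k (mul k a b) * c.2 = a.2 + sgn k a * (b.2 + sgn k b * c.2)
    rw [h]
    show a.2 + sgn k a * b.2 + _ = _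
    ring

theorem mul_zero' (k : Kind) (a : ℤ × ℤ) : mul k a (0, 0) = a := by
  unfold mul
  simp

theorem pos_append (k : Kind) (u v : List ℕ) : pos k (u ++ v) = mul k (pos k v) (pos k u) := by
  induction u with
  | nil => exact (mul_zero' k _).symm
  | cons d u ih =>
    show mul k (pos k (u ++ v)) (stp k d) = mul k (pos k v) (mul k (pos k u) (stp k d))
    rw [ih, mul_assoc']

theorem card_below (A : Finset (List ℕ)) (b : List ℕ) :
    (below A b).card = (A.filter (fun w => b <:+ w)).card := by
  unfold below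
  rw [Finset.card_image_of_injOn]
  · intro v hv w hw h
    obtain ⟨_, t, rfl⟩ := Finset.mem_filter.1 (Finset.mem_coe.1 hv)
    obtain ⟨_, s, rfl⟩ := Finset.mem_filter.1 (Finset.mem_coe.1 hw)
    simp only [List.length_append, Nat.add_sub_cancel] at h
    rw [List.take_left' rfl, List.take_left' rfl] at h
    rw [h]

theorem card_parts (o : Obj) (b : List ℕ) :
    (up o b).1.card + (low o b).1.card = o.1.card := by
  show (o.1.filter (fun w => ¬ b <:+ w)).card + (below o.1 b).card = _
  rw [card_below, add_comm]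
  exact Finset.card_filter_add_card_filter_not (s := o.1) (fun w => b <:+ w)

theorem parts_ok (k : Kind) (o : Obj) (b : List ℕ) (ho : Ok k o) (hb : b ∈ o.1) (hb0 : b ≠ [])
    (h1 : (up o b).2.card ≤ 15) (h2 : (low o b).2.card ≤ 15) :
    Ok k (up o b) ∧ Ok k (low o b) ∧ (up o b).1.card + (low o b).1.card = o.1.card := by
  have hnil : ¬ b <:+ [] := by rw [List.suffix_nil]; exact hb0
  refine ⟨⟨⟨?_, ?_, ?_, ?_⟩, ?_, ?_, h1⟩, ⟨⟨?_, ?_, ?_, ?_⟩, ?_, ?_, h2⟩, card_parts o b⟩
  · exact mem_up.2 ⟨ho.tr.nil, hnil⟩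
  · intro d w hw
    obtain ⟨h3, h4⟩ := mem_up.1 hw
    exact mem_up.2 ⟨ho.tr.tail d w h3, fun h5 => h4 (h5.trans (List.suffix_cons _ _))⟩
  · intro d w hw
    exact ho.tr.dir d w (mem_up.1 hw).1
  · exact ho.tr.inj.mono (fun w hw => (mem_up.1 (Finset.mem_coe.1 hw)).1)
  · intro w hw
    have hw' : w ∈ insert b.tail (o.2.filter (fun w => ¬ b <:+ w)) := hw
    rcases Finset.mem_insert.1 hw' with rfl | h3
    · refine mem_up.2 ⟨suffix_mem ho.tr hb (List.tail_suffix _), ?_⟩
      intro h4
      have h5 := h4.length_le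
      have h6 : 0 < b.length := List.length_pos_iff.2 hb0
      rw [List.length_tail] at h5
      omega
    · obtain ⟨h4, h5⟩ := Finset.mem_filter.1 h3
      exact mem_up.2 ⟨ho.sub h4, h5⟩
  · show [] ∈ insert b.tail (o.2.filter (fun w => ¬ b <:+ w))
    exact Finset.mem_insert_of_mem (Finset.mem_filter.2 ⟨ho.nil, hnil⟩)
  · exact mem_below.2 hb
  · intro d w hw
    have h3 : d :: w ∈ below o.1 b := hw
    rw [mem_below, List.cons_append] at h3
    exact mem_below.2 (ho.tr.tail d _ h3)
  · intro d w hw
    have h3 : d :: w ∈ below o.1 b := hw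
    rw [mem_below, List.cons_append] at h3
    exact ho.tr.dir d _ h3
  · intro v hv w hw h
    have h3 : v ++ b ∈ o.1 := mem_below.1 (Finset.mem_coe.1 hv)
    have h4 : w ++ b ∈ o.1 := mem_below.1 (Finset.mem_coe.1 hw)
    have h5 : pos k (v ++ b) = pos k (w ++ b) := by rw [pos_append, pos_append, h]
    exact List.append_cancel_right (ho.tr.inj (Finset.mem_coe.2 h3) (Finset.mem_coe.2 h4) h5)
  · intro w hw
    have hw' : w ∈ insert [] (below o.2 b) := hw
    rcases Finset.mem_insert.1 hw' with rfl | h3
    · exact mem_below.2 hb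
    · exact mem_below.2 (ho.sub (mem_below.1 h3))
  · exact Finset.mem_insert_self _ _

theorem key_cons (d : ℕ) (w : List ℕ) : key (d :: w) = 7 * key w + (d + 1) := rfl

theorem key_inj {v w : List ℕ} (hv : ∀ d ∈ v, d < 6) (hw : ∀ d ∈ w, d < 6)
    (h : key v = key w) : v = w := by
  induction v generalizing w with
  | nil =>
    cases w with
    | nil => rfl
    | cons e w =>
      rw [key_cons] at h
      have : key ([] : List ℕ) = 0 := rfl
      omega
  | cons d v ih =>
    cases w with
    | nil =>
      rw [key_cons] at h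
      have : key ([] : List ℕ) = 0 := rfl
      omega
    | cons e w =>
      rw [key_cons, key_cons] at h
      have h1 := hv d List.mem_cons_self
      have h2 := hw e List.mem_cons_self
      have h3 : d = e := by omega
      have h4 : key v = key w := by omega
      rw [h3, ih (fun x hx => hv x (List.mem_cons_of_mem _ hx))
        (fun x hx => hw x (List.mem_cons_of_mem _ hx)) h4]

theorem nd_le (k : Kind) : nd k ≤ 6 := by cases k <;> simp [nd]

theorem cut_unique (k : Kind) (o : Obj) (b c : List ℕ) (ho : Ok k o) (hb : isCut o b)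
    (hc : isCut o c) : b = c := by
  have h1 := hb.2 c hc.1
  have h2 := hc.2 b hb.1
  have hn := nd_le k
  exact key_inj (fun d hd => (letters ho.tr hb.1.1 d hd).trans_le hn)
    (fun d hd => (letters ho.tr hc.1.1 d hd).trans_le hn) (le_antisymm h1 h2)

theorem marks_up (o : Obj) (b : List ℕ) : (up o b).2.card ≤ o.2.card + 1 := by
  show (insert b.tail (o.2.filter (fun w => ¬ b <:+ w))).card ≤ _
  exact (Finset.card_insert_le _ _).trans (Nat.add_le_add_right (Finset.card_filter_le _ _) 1)

theorem marks_low (o : Obj) (b : List ℕ) : (low o b).2.card ≤ o.2.card + 1 := by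
  show (insert [] (below o.2 b)).card ≤ _
  refine (Finset.card_insert_le _ _).trans (Nat.add_le_add_right ?_ 1)
  rw [card_below]
  exact Finset.card_filter_le _ _

theorem kids_pt : kids pt = (none, none) := by
  unfold kids
  rw [dif_neg]
  rintro ⟨b, ⟨h1, h2, _⟩, _⟩
  exact h2 (Finset.mem_singleton.1 h1)

theorem ok_pt (k : Kind) : Ok k pt := by
  refine ⟨⟨?_, ?_, ?_, ?_⟩, ?_, ?_, ?_⟩
  · exact Finset.mem_singleton_self _
  · intro d w h
    exact absurd (Finset.mem_singleton.1 h) (by simp)
  · intro d w h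
    exact absurd (Finset.mem_singleton.1 h) (by simp)
  · intro v hv w hw _
    have h1 : v = [] := Finset.mem_singleton.1 (Finset.mem_coe.1 hv)
    have h2 : w = [] := Finset.mem_singleton.1 (Finset.mem_coe.1 hw)
    rw [h1, h2]
  · exact Finset.Subset.refl _
  · exact Finset.mem_singleton_self _
  · show ({[]} : Finset (List ℕ)).card ≤ 15
    simp

theorem eq_pt (k : Kind) (o : Obj) (ho : Ok k o) (h : o.1.card = 1) : o = pt := by
  obtain ⟨x, hx⟩ := Finset.card_eq_one.1 h
  have h1 := ho.tr.nil
  rw [hx, Finset.mem_singleton] at h1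
  have h2 : o.1 = {[]} := by rw [hx, ← h1]
  have h3 : o.2 = {[]} := by
    apply Finset.Subset.antisymm
    · rw [← h2]; exact ho.sub
    · exact Finset.singleton_subset_iff.2 ho.nil
  exact Prod.ext h2 h3

theorem kids_main : S_kids := by
  refine ⟨mul_assoc', pos_append, parts_ok, cut_unique, ?_, eq_pt, ok_pt, kids_pt⟩
  intro k o ho
  by_cases h : ∃ b, isCut o b
  · right
    obtain ⟨hg, hm⟩ := h.choose_spec
    obtain ⟨h1, h2, h3⟩ := hg
    have hc := ho.card
    have h4 : (up o h.choose).2.card ≤ 15 ∧ (low o h.choose).2.card ≤ 15 := by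
      by_cases h5 : o.2.card < 15
      · exact ⟨by have := marks_up o h.choose; omega, by have := marks_low o h.choose; omega⟩
      · rw [if_neg h5] at h3
        exact ⟨h3.1.le, h3.2.le⟩
    obtain ⟨h5, h6, h7⟩ := parts_ok k o h.choose ho h1 h2 h4.1 h4.2
    refine ⟨h.choose, h.choose_spec, ?_, h5, h6, h7, ?_, ?_⟩
    · unfold kids
      rw [dif_pos h]
    · exact Finset.card_pos.2 ⟨[], h5.tr.nil⟩
    · exact Finset.card_pos.2 ⟨[], h6.tr.nil⟩
  · left
    unfold kids
    rw [dif_neg h]

end Pool.Agent.W976.LT
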