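import Pool.Agent.W955.LT.Stm

/-!
# Lattice trees: the number of objects which satisfy a pattern
-/

set_option autoImplicit false

namespace Pool.Agent.W976.LT

open Pool.Agent.W955.LT Classical

/-- the number of small subsets -/
theorem card_small (A : Finset (List ℕ)) (j : ℕ) :
    (A.powerset.filter (fun S => S.card ≤ j)).card ≤ (A.card + 1) ^ j := by
  induction j with
  | zero =>
    rw [pow_zero, Finset.card_le_one]
    intro a ha b hb
    have h1 := (Finset.mem_filter.1 ha).2
    have h2 := (Finset.mem_filter.1 hb).2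
    rw [Finset.card_eq_zero.1 (Nat.le_zero.1 h1), Finset.card_eq_zero.1 (Nat.le_zero.1 h2)]
  | succ j ih =>
    set N := A.powerset.filter (fun S => S.card ≤ j) with hN
    have h1 : A.powerset.filter (fun S => S.card ≤ j + 1) ⊆
        N ∪ (N ×ˢ A).image (fun p => insert p.2 p.1) := by
      intro S hS
      obtain ⟨h2, h3⟩ := Finset.mem_filter.1 hS
      rw [Finset.mem_powerset] at h2
      rw [Finset.mem_union]
      by_cases h4 : S.card ≤ j
      · exact Or.inl (Finset.mem_filter.2 ⟨Finset.mem_powerset.2 h2, h4⟩)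
      · right
        obtain ⟨a, ha⟩ : S.Nonempty := by
          rw [← Finset.card_pos]; omega
        rw [Finset.mem_image]
        refine ⟨(S.erase a, a), ?_, Finset.insert_erase ha⟩
        rw [Finset.mem_product]
        refine ⟨Finset.mem_filter.2 ⟨Finset.mem_powerset.2
          ((Finset.erase_subset _ _).trans h2), ?_⟩, h2 ha⟩
        rw [Finset.card_erase_of_mem ha]
        omega
    refine (Finset.card_le_card h1).trans ((Finset.card_union_le _ _).trans ?_)
    have h2 : ((N ×ˢ A).image (fun p => insert p.2 p.1)).card ≤ N.card * A.card :=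
      Finset.card_image_le.trans (Finset.card_product _ _).le
    calc N.card + _ ≤ N.card + N.card * A.card := Nat.add_le_add_left h2 _
      _ = N.card * (A.card + 1) := by ring
      _ ≤ (A.card + 1) ^ j * (A.card + 1) := Nat.mul_le_mul_right _ ih
      _ = _ := (pow_succ _ _).symm

/-- the objects with trees in a given set -/
theorem card_objs_le {k : Kind} {m : ℕ} (G : Finset Obj) (F : Finset (Finset (List ℕ)))
    (h : ∀ z ∈ G, Ok k z ∧ z.1.card = m ∧ z.1 ∈ F) : G.card ≤ (m + 1) ^ 15 * F.card := by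
  have h1 : G.card ≤ (m + 1) ^ 15 * (G.image Prod.fst).card := by
    refine Finset.card_le_mul_card_image G _ ?_
    intro A hA
    obtain ⟨z, hz, rfl⟩ := Finset.mem_image.1 hA
    have h2 := (h z hz).2.1
    rw [← h2]
    refine le_trans ?_ (card_small z.1 15)
    refine Finset.card_le_card_of_injOn Prod.snd ?_ ?_
    · intro y hy
      obtain ⟨h3, h4⟩ := Finset.mem_filter.1 (Finset.mem_coe.1 hy)
      refine Finset.mem_coe.2 (Finset.mem_filter.2 ⟨Finset.mem_powerset.2 ?_, (h y h3).1.card⟩)
      rw [← h4]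
      exact (h y h3).1.sub
    · intro y hy y' hy' h5
      have h3 := (Finset.mem_filter.1 (Finset.mem_coe.1 hy)).2
      have h4 := (Finset.mem_filter.1 (Finset.mem_coe.1 hy')).2
      exact Prod.ext (h3.trans h4.symm) h5
  refine h1.trans (Nat.mul_le_mul_left _ (Finset.card_le_card ?_))
  intro A hA
  obtain ⟨z, hz, rfl⟩ := Finset.mem_image.1 hA
  exact (h z hz).2.2

theorem objs_le (hT : S_trees) (k : Kind) (m : ℕ) :
    (objs k m).card ≤ (m + 1) ^ 15 * tn k m := by
  refine card_objs_le (k := k) (objs k m) (trees k m) ?_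
  intro z hz
  obtain ⟨h1, h2⟩ := (hT.2 k m z).1 hz
  exact ⟨h1, h2, (hT.1 k m z.1).2 ⟨h1.tr, h2⟩⟩

theorem tn_le (hT : S_trees) (k : Kind) (m : ℕ) :
    tn k m ≤ ((objs k m).filter (fun z => z.2 = {[]})).card := by
  unfold tn
  refine Finset.card_le_card_of_injOn (fun A => (A, {[]})) ?_ ?_
  · intro A hA
    obtain ⟨h1, h2⟩ := (hT.1 k m A).1 (Finset.mem_coe.1 hA)
    refine Finset.mem_coe.2 (Finset.mem_filter.2 ⟨(hT.2 k m _).2 ⟨⟨h1, ?_, ?_, ?_⟩, h2⟩, rfl⟩)
    · exact Finset.singleton_subset_iff.2 h1.nil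
    · exact Finset.mem_singleton_self _
    · show ({[]} : Finset (List ℕ)).card ≤ 15
      simp
  · intro A _ B _ h
    exact congrArg Prod.fst h

theorem prod_le (hT : S_trees) (k : Kind) (m : ℕ) (xs : List Obj)
    (h : ∀ x ∈ xs, x.1.card ≤ m) :
    (xs.map (fun x => (objs k x.1.card).card)).prod ≤
      ((m + 1) ^ 15) ^ xs.length * (xs.map (fun x => tn k x.1.card)).prod := by
  induction xs with
  | nil => simp
  | cons x xs ih =>
    rw [List.map_cons, List.prod_cons, List.map_cons, List.prod_cons, List.length_cons]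
    have h1 := ih (fun y hy => h y (List.mem_cons_of_mem _ hy))
    have h2 := objs_le hT k x.1.card
    have h3 : (x.1.card + 1) ^ 15 ≤ (m + 1) ^ 15 :=
      Nat.pow_le_pow_left (by have := h x List.mem_cons_self; omega) _
    calc _ ≤ ((m + 1) ^ 15 * tn k x.1.card) *
          (((m + 1) ^ 15) ^ xs.length * (xs.map (fun x => tn k x.1.card)).prod) :=
          Nat.mul_le_mul (h2.trans (Nat.mul_le_mul_right _ h3)) h1
      _ = _ := by ring

theorem atoms_pos (p : Pat Obj) : 1 ≤ p.atoms.length := by
  induction p with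
  | atom x => exact le_rfl
  | left p ih => exact ih
  | right p ih => exact ih
  | both p q ihp ihq =>
    show 1 ≤ (p.atoms ++ q.atoms).length
    rw [List.length_append]; omega

theorem placed_card {z x : Obj} {u : List ℕ} (h : Placed z x u) : x.1.card ≤ z.1.card := by
  refine Finset.card_le_card_of_injOn (fun w => w ++ u) ?_ ?_
  · intro w hw
    exact h.sub w hw
  · intro w _ w' _ h1
    exact List.append_cancel_right h1

theorem cb_main (hT : S_trees) (hP : S_place) (hC : S_count) : S_cb := by
  obtain ⟨q, hq⟩ := hC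
  refine ⟨(q + 1) * (Polynomial.X + 1) ^ 30, ?_, ?_⟩
  · intro m
    simp only [Polynomial.eval_mul, Polynomial.eval_add, Polynomial.eval_one,
      Polynomial.eval_pow, Polynomial.eval_X]
    exact Nat.one_le_iff_ne_zero.2 (by positivity)
  intro k p m hp
  have hev : ((q + 1) * (Polynomial.X + 1) ^ 30 : Polynomial ℕ).eval m =
      (q.eval m + 1) * (m + 1) ^ 30 := by
    simp only [Polynomial.eval_mul, Polynomial.eval_add, Polynomial.eval_one,
      Polynomial.eval_pow, Polynomial.eval_X]
  rw [hev]
  set G := (objs k m).filter (fun z => p.holds kids z) with hG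
  have hlen := atoms_pos p
  have hne : p.atoms ≠ [] := by
    intro h
    rw [h] at hlen
    simp at hlen
  have key : G.card * (p.atoms.map (fun x => (objs k x.1.card).card)).prod ≤
      ((q.eval m + 1) * (m + 1) ^ 30) ^ p.atoms.length * tn k m := by
    rcases G.eq_empty_or_nonempty with h0 | ⟨z, hz⟩
    · rw [h0, Finset.card_empty, zero_mul]; exact Nat.zero_le _
    · obtain ⟨hz1, hz2⟩ := Finset.mem_filter.1 hz
      obtain ⟨hz3, hz4⟩ := (hT.2 k m z).1 hz1
      have hm : 1 ≤ m := by
        rw [← hz4]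
        exact Finset.card_pos.2 ⟨[], hz3.tr.nil⟩
      obtain ⟨us, hus⟩ := hP p z hz2
      have hle : ∀ x ∈ p.atoms, x.1.card ≤ m := by
        intro x hx
        obtain ⟨i, hi, rfl⟩ := List.mem_iff_getElem.1 hx
        have hl := hus.1.length_eq
        have h1 := (List.forall₂_iff_get.1 hus.1).2 i hi (by omega)
        rw [← hz4]
        exact placed_card h1
      set F := (trees k m).filter (fun A => ∃ S us, Ok k (A, S) ∧ PlacedL (A, S) p.atoms us)
        with hF
      have h1 : G.card ≤ (m + 1) ^ 15 * F.card := by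
        refine card_objs_le (k := k) G F ?_
        intro y hy
        obtain ⟨hy1, hy2⟩ := Finset.mem_filter.1 hy
        obtain ⟨hy3, hy4⟩ := (hT.2 k m y).1 hy1
        obtain ⟨vs, hvs⟩ := hP p y hy2
        exact ⟨hy3, hy4, Finset.mem_filter.2 ⟨(hT.1 k m y.1).2 ⟨hy3.tr, hy4⟩, y.2, vs, hy3, hvs⟩⟩
      have h2 := prod_le hT k m p.atoms hle
      have h3 := hq k p.atoms m hne hp hm
      rw [← hF] at h3
      obtain ⟨n, hn⟩ : ∃ n, p.atoms.length = n + 1 := ⟨p.atoms.length - 1, by omega⟩
      have h4 : (m + 1) ^ 15 * ((m + 1) ^ 15) ^ (n + 1) ≤ ((m + 1) ^ 30) ^ (n + 1) := by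
        rw [← pow_mul, ← pow_mul, ← pow_add]
        exact Nat.pow_le_pow_right (by omega) (by omega)
      calc G.card * (p.atoms.map (fun x => (objs k x.1.card).card)).prod
          ≤ ((m + 1) ^ 15 * F.card) * (((m + 1) ^ 15) ^ p.atoms.length *
            (p.atoms.map (fun x => tn k x.1.card)).prod) := Nat.mul_le_mul h1 h2
        _ = ((m + 1) ^ 15 * ((m + 1) ^ 15) ^ p.atoms.length) *
            (F.card * (p.atoms.map (fun x => tn k x.1.card)).prod) := by ring
        _ ≤ ((m + 1) ^ 30) ^ p.atoms.length * (q.eval m ^ p.atoms.length * tn k m) := by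
            refine Nat.mul_le_mul ?_ h3
            rw [hn]; exact h4
        _ ≤ ((m + 1) ^ 30) ^ p.atoms.length * ((q.eval m + 1) ^ p.atoms.length * tn k m) := by
            refine Nat.mul_le_mul_left _ (Nat.mul_le_mul_right _ ?_)
            exact Nat.pow_le_pow_left (Nat.le_succ _) _
        _ = _ := by rw [mul_pow]; ring
  have h1 := tn_le hT k m
  refine ⟨?_, ?_⟩
  · refine key.trans (Nat.mul_le_mul_left _ (h1.trans ?_))
    exact Finset.card_filter_le _ _
  · refine le_trans (Nat.mul_le_mul_right _ ?_) (key.trans (Nat.mul_le_mul_left _ h1))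
    refine Finset.card_le_card ?_
    intro z hz
    obtain ⟨h2, h3⟩ := Finset.mem_filter.1 hz
    exact Finset.mem_filter.2 ⟨(Finset.mem_filter.1 h2).1, h3⟩

/-- The number of objects which satisfy a pattern. -/
theorem cb : S_trees → S_kids → S_place → S_count → S_cb := fun h1 _ h3 h4 => cb_main h1 h3 h4

end Pool.Agent.W976.LT
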