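import Pool.Agent.W976.LT.Kids

/-!
# Lattice trees: codes of objects, second part
-/

set_option autoImplicit false

namespace Pool.Agent.W976.LT

open Pool.Agent.W955.LT

theorem isSuf_iff {b w : List ℕ} : isSuf b w = true ↔ b <:+ w := by
  unfold isSuf
  rw [decide_eq_true_iff, List.suffix_iff_eq_drop]
  exact eq_comm

theorem toFinset_belowC (l : List (List ℕ)) (b : List ℕ) :
    (belowC l b).toFinset = below l.toFinset b := by
  ext w
  unfold belowC below
  simp only [List.mem_toFinset, List.mem_map, List.mem_filter, Finset.mem_image,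
    Finset.mem_filter, isSuf_iff]

theorem mem_dedupC {l : List Code} {z : Code} : z ∈ dedupC l ↔ z ∈ l := by
  induction l with
  | nil => simp [dedupC]
  | cons a l ih =>
    have h : dedupC (a :: l) = if a ∈ dedupC l then dedupC l else a :: dedupC l := rfl
    rw [h]
    split_ifs with h1
    · rw [List.mem_cons, ih]
      constructor
      · exact Or.inr
      · rintro (rfl | h2)
        · exact ih.1 h1
        · exact h2
    · rw [List.mem_cons, List.mem_cons, ih]

theorem nodup_dedupC (l : List Code) : (dedupC l).Nodup := by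
  induction l with
  | nil => exact List.nodup_nil
  | cons a l ih =>
    have h : dedupC (a :: l) = if a ∈ dedupC l then dedupC l else a :: dedupC l := rfl
    rw [h]
    split_ifs with h1
    · exact ih
    · exact List.nodup_cons.2 ⟨h1, ih⟩

theorem length_dedupC (l : List Code) : (dedupC l).length ≤ l.length := by
  induction l with
  | nil => simp [dedupC]
  | cons a l ih =>
    have h : dedupC (a :: l) = if a ∈ dedupC l then dedupC l else a :: dedupC l := rfl
    rw [h]
    split_ifs with h1
    · rw [List.length_cons]; omega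
    · rw [List.length_cons, List.length_cons]; omega

/-- words with small letters -/
def Sm (l : List (List ℕ)) : Prop := ∀ w ∈ l, ∀ d ∈ w, d < 6

section

variable (h1 : S_code1)

include h1

theorem norm_congr {l l' : List (List ℕ)} (hl : Sm l) (h : l.toFinset = l'.toFinset) :
    norm l = norm l' := h1.1 l l' hl h

theorem length_norm {l : List (List ℕ)} (hl : Sm l) : (norm l).length = l.toFinset.card := by
  obtain ⟨h2, h3⟩ := h1.2.1 l hl
  rw [← h2, List.toFinset_card_of_nodup]
  refine h3.imp ?_
  rintro v _ h rfl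
  exact absurd h (lt_irrefl _)

theorem mem_enc1 {k : Kind} {o : Obj} (ho : Ok k o) {w : List ℕ} : w ∈ (enc o).1 ↔ w ∈ o.1 := by
  rw [← List.mem_toFinset, (h1.2.2.2.2.1 k o ho).1]

theorem mem_enc2 {k : Kind} {o : Obj} (ho : Ok k o) {w : List ℕ} : w ∈ (enc o).2 ↔ w ∈ o.2 := by
  rw [← List.mem_toFinset, (h1.2.2.2.2.1 k o ho).2.1]

theorem sm_of_sub {k : Kind} {o : Obj} (ho : Ok k o) {l : List (List ℕ)} (hl : ∀ w ∈ l, w ∈ o.1) :
    Sm l := fun w hw d hd => (letters ho.tr (hl w hw) d hd).trans_le (nd_le k)

theorem upC_enc {k : Kind} {o : Obj} (ho : Ok k o) {b : List ℕ} (hb : b ∈ o.1) :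
    upC (enc o) b = enc (up o b) := by
  have hbt : b.tail ∈ o.1 := suffix_mem ho.tr hb (List.tail_suffix _)
  refine Prod.ext ?_ ?_
  · refine norm_congr h1 (sm_of_sub h1 ho ?_) ?_
    · intro w hw
      exact (mem_enc1 h1 ho).1 (List.mem_filter.1 hw).1
    · ext w
      rw [Finset.toList_toFinset, List.mem_toFinset, List.mem_filter, mem_enc1 h1 ho, mem_up]
      refine and_congr_right fun _ => ?_
      rw [Bool.not_eq_true', ← Bool.not_eq_true, isSuf_iff]
  · refine norm_congr h1 (sm_of_sub h1 ho ?_) ?_
    · intro w hw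
      rcases List.mem_cons.1 hw with rfl | hw
      · exact hbt
      · exact ho.sub ((mem_enc2 h1 ho).1 (List.mem_filter.1 hw).1)
    · ext w
      rw [Finset.toList_toFinset, List.mem_toFinset, List.mem_cons, List.mem_filter,
        mem_enc2 h1 ho]
      show _ ↔ w ∈ insert b.tail (o.2.filter (fun w => ¬ b <:+ w))
      rw [Finset.mem_insert, Finset.mem_filter, Bool.not_eq_true', ← Bool.not_eq_true, isSuf_iff]

theorem lowC_enc {k : Kind} {o : Obj} (ho : Ok k o) {b : List ℕ} (hb : b ∈ o.1) :
    lowC (enc o) b = enc (low o b) := by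
  have e1 : (enc o).1.toFinset = o.1 := (h1.2.2.2.2.1 k o ho).1
  have e2 : (enc o).2.toFinset = o.2 := (h1.2.2.2.2.1 k o ho).2.1
  have hsm : ∀ l : List (List ℕ), l.toFinset ⊆ o.1 → Sm (belowC l b) := by
    intro l hl w hw d hd
    have h2 : w ∈ (belowC l b).toFinset := List.mem_toFinset.2 hw
    rw [toFinset_belowC, mem_below] at h2
    exact (letters ho.tr (hl h2) d (List.mem_append_left _ hd)).trans_le (nd_le k)
  refine Prod.ext ?_ ?_
  · refine norm_congr h1 (hsm _ e1.le) ?_
    rw [toFinset_belowC, e1, Finset.toList_toFinset]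
    rfl
  · refine norm_congr h1 ?_ ?_
    · intro w hw
      rcases List.mem_cons.1 hw with rfl | hw
      · intro d hd; simp at hd
      · exact hsm _ (e2.le.trans ho.sub) w hw
    · rw [List.toFinset_cons, toFinset_belowC, e2, Finset.toList_toFinset]
      rfl

theorem len_upC1 {k : Kind} {o : Obj} (ho : Ok k o) {b : List ℕ} (hb : b ∈ o.1) :
    (upC (enc o) b).1.length = (up o b).1.card := by
  rw [upC_enc h1 ho hb]
  show (norm (up o b).1.toList).length = _
  rw [length_norm h1, Finset.toList_toFinset]
  intro w hw d hd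
  have h2 := (mem_up.1 (Finset.mem_toList.1 hw)).1
  exact (letters ho.tr h2 d hd).trans_le (nd_le k)

theorem len_upC2 {k : Kind} {o : Obj} (ho : Ok k o) {b : List ℕ} (hb : b ∈ o.1) :
    (upC (enc o) b).2.length = (up o b).2.card := by
  rw [upC_enc h1 ho hb]
  show (norm (up o b).2.toList).length = _
  rw [length_norm h1, Finset.toList_toFinset]
  intro w hw d hd
  have h2 : w ∈ insert b.tail (o.2.filter (fun w => ¬ b <:+ w)) := Finset.mem_toList.1 hw
  have h3 : w ∈ o.1 := by
    rcases Finset.mem_insert.1 h2 with rfl | h2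
    · exact suffix_mem ho.tr hb (List.tail_suffix _)
    · exact ho.sub (Finset.mem_filter.1 h2).1
  exact (letters ho.tr h3 d hd).trans_le (nd_le k)

theorem len_lowC1 {k : Kind} {o : Obj} (ho : Ok k o) {b : List ℕ} (hb : b ∈ o.1) :
    (lowC (enc o) b).1.length = (low o b).1.card := by
  rw [lowC_enc h1 ho hb]
  show (norm (low o b).1.toList).length = _
  rw [length_norm h1, Finset.toList_toFinset]
  intro w hw d hd
  have h2 : w ∈ below o.1 b := Finset.mem_toList.1 hw
  exact (letters ho.tr (mem_below.1 h2) d (List.mem_append_left _ hd)).trans_le (nd_le k)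

theorem len_lowC2 {k : Kind} {o : Obj} (ho : Ok k o) {b : List ℕ} (hb : b ∈ o.1) :
    (lowC (enc o) b).2.length = (low o b).2.card := by
  rw [lowC_enc h1 ho hb]
  show (norm (low o b).2.toList).length = _
  rw [length_norm h1, Finset.toList_toFinset]
  intro w hw d hd
  have h2 : w ∈ insert [] (below o.2 b) := Finset.mem_toList.1 hw
  rcases Finset.mem_insert.1 h2 with rfl | h2
  · simp at hd
  · exact (letters ho.tr (ho.sub (mem_below.1 h2)) d (List.mem_append_left _ hd)).trans_le
      (nd_le k)

theorem goodC_iff {k : Kind} {o : Obj} (ho : Ok k o) {b : List ℕ} (hb : b ∈ o.1) :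
    goodC (enc o) b = true ↔ good o b := by
  obtain ⟨_, _, e3, e4⟩ := h1.2.2.2.2.1 k o ho
  unfold goodC good
  rw [len_upC1 h1 ho hb, len_upC2 h1 ho hb, len_lowC1 h1 ho hb, len_lowC2 h1 ho hb, e3, e4]
  rw [Bool.and_eq_true, Bool.not_eq_true', decide_eq_false_iff_not]
  split_ifs with h2
  · rw [Bool.and_eq_true, decide_eq_true_iff, decide_eq_true_iff]
    exact ⟨fun h => ⟨hb, h⟩, fun h => h.2⟩
  · rw [Bool.and_eq_true, decide_eq_true_iff, decide_eq_true_iff]
    exact ⟨fun h => ⟨hb, h⟩, fun h => h.2⟩

theorem cutC_some {k : Kind} {o : Obj} (ho : Ok k o) {b : List ℕ}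
    (h : cutC (enc o) = some b) : isCut o b := by
  unfold cutC at h
  have hm : b ∈ (enc o).1.filter (fun b => goodC (enc o) b) := by
    cases hl : (enc o).1.filter (fun b => goodC (enc o) b) with
    | nil => rw [hl] at h; simp at h
    | cons x l =>
      rw [hl] at h
      simp only [List.head?_cons, Option.some.injEq] at h
      rw [h]
      exact List.mem_cons_self
  have hb : b ∈ o.1 := (mem_enc1 h1 ho).1 (List.mem_filter.1 hm).1
  refine ⟨(goodC_iff h1 ho hb).1 (List.mem_filter.1 hm).2, ?_⟩
  intro c hc
  have hcm : c ∈ (enc o).1.filter (fun b => goodC (enc o) b) :=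
    List.mem_filter.2 ⟨(mem_enc1 h1 ho).2 hc.1, (goodC_iff h1 ho hc.1).2 hc⟩
  have hsm : Sm o.1.toList := sm_of_sub h1 ho (fun w hw => Finset.mem_toList.1 hw)
  have hp : (enc o).1.Pairwise (fun v w => key v < key w) := (h1.2.1 _ hsm).2
  have hp' := hp.filter (fun b => goodC (enc o) b)
  cases hl : (enc o).1.filter (fun b => goodC (enc o) b) with
  | nil => rw [hl] at h; simp at h
  | cons x l =>
    rw [hl] at h hcm hp'
    simp only [List.head?_cons, Option.some.injEq] at h
    subst h
    rcases List.mem_cons.1 hcm with rfl | h2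
    · exact le_rfl
    · exact ((List.pairwise_cons.1 hp').1 c h2).le

theorem cutC_none {k : Kind} {o : Obj} (ho : Ok k o) (h : cutC (enc o) = none) :
    ¬ ∃ b, isCut o b := by
  rintro ⟨b, hb⟩
  unfold cutC at h
  rw [List.head?_eq_none_iff] at h
  have : b ∈ (enc o).1.filter (fun b => goodC (enc o) b) :=
    List.mem_filter.2 ⟨(mem_enc1 h1 ho).2 hb.1.1, (goodC_iff h1 ho hb.1.1).2 hb.1⟩
  rw [h] at this
  simp at this

theorem valid_enc {k : Kind} {o : Obj} (ho : Ok k o) : validC k (enc o) = true :=
  (h1.2.2.1 k _).2 ⟨o, ho, rfl⟩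

theorem kidsC_enc (k : Kind) (o : Obj) (ho : Ok k o) :
    kidsC k (enc o) = ((kids o).1.map enc, (kids o).2.map enc) := by
  unfold kidsC
  rw [if_pos (valid_enc h1 ho)]
  cases h : cutC (enc o) with
  | none =>
    have h2 := cutC_none h1 ho h
    have h3 : kids o = (none, none) := by
      unfold kids
      rw [dif_neg h2]
    rw [h3]
    rfl
  | some b =>
    have h2 := cutC_some h1 ho h
    have h4 : ∃ b, isCut o b := ⟨b, h2⟩
    have h3 : kids o = (some (up o b), some (low o b)) := by
      unfold kids
      rw [dif_pos h4, cut_unique k o _ _ ho h4.choose_spec h2]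
    rw [h3]
    simp only [Option.map_some]
    rw [upC_enc h1 ho h2.1.1, lowC_enc h1 ho h2.1.1]

/-- the parts of a valid code -/
theorem kidsC_some {k : Kind} {z a : Code} (hz : validC k z = true)
    (h : (kidsC k z).1 = some a ∨ (kidsC k z).2 = some a) :
    ∃ o b, Ok k o ∧ enc o = z ∧ isCut o b ∧ Ok k (up o b) ∧ Ok k (low o b) ∧
      kidsC k z = (some (enc (up o b)), some (enc (low o b))) ∧
      (up o b).1.card < o.1.card ∧ (low o b).1.card < o.1.card := by
  obtain ⟨o, ho, rfl⟩ := (h1.2.2.1 k z).1 hz
  rw [kidsC_enc h1 k o ho] at h ⊢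
  rcases kids_main.2.2.2.2.1 k o ho with h2 | ⟨b, hb, h2, h3, h4, h5, h6, h7⟩
  · rw [h2] at h
    simp at h
  · refine ⟨o, b, ho, rfl, hb, h3, h4, ?_, by omega, by omega⟩
    rw [h2]
    rfl

theorem mem_glues {k : Kind} {a b z : Code} (hz : validC k z = true)
    (h : kidsC k z = (some a, some b)) : z ∈ glues k a b := by
  obtain ⟨o, c, ho, rfl, hc, h2, h3, h4, _, _⟩ := kidsC_some h1 hz (a := a) (by rw [h]; simp)
  rw [h4] at h
  simp only [Prod.mk.injEq, Option.some.injEq] at h
  obtain ⟨rfl, rfl⟩ := h
  obtain ⟨hcA, hc0, _⟩ := hc.1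
  cases c with
  | nil => exact absurd rfl hc0
  | cons d m =>
    have hm : m ∈ (enc (up o (d :: m))).2 := by
      rw [mem_enc2 h1 h2]
      show m ∈ insert _ _
      exact Finset.mem_insert_self _ _
    have hd : d < nd k := ho.tr.dir d m hcA
    have key : glueC (enc (up o (d :: m))) (enc (low o (d :: m))) m d (decide (m ∈ o.2))
        (decide (d :: m ∈ o.2)) = enc o := by
      have hall1 : ∀ w, w ∈ (enc (up o (d :: m))).1 ++
          (enc (low o (d :: m))).1.map (fun w => w ++ d :: m) ↔ w ∈ o.1 := by
        intro w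
        rw [List.mem_append, mem_enc1 h1 h2, List.mem_map, mem_up]
        constructor
        · rintro (h5 | ⟨v, hv, rfl⟩)
          · exact h5.1
          · rw [mem_enc1 h1 h3] at hv
            exact mem_below.1 hv
        · intro h5
          by_cases h6 : d :: m <:+ w
          · obtain ⟨v, rfl⟩ := h6
            refine Or.inr ⟨v, ?_, rfl⟩
            rw [mem_enc1 h1 h3]
            exact mem_below.2 h5
          · exact Or.inl ⟨h5, h6⟩
      have hup2 : ∀ w, w ∈ (up o (d :: m)).2 ↔ w = m ∨ (w ∈ o.2 ∧ ¬ d :: m <:+ w) := by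
        intro w
        show w ∈ insert m (o.2.filter (fun w => ¬ (d :: m) <:+ w)) ↔ _
        rw [Finset.mem_insert, Finset.mem_filter]
      have hlow2 : ∀ w, w ∈ (low o (d :: m)).2 ↔ w = [] ∨ w ++ (d :: m) ∈ o.2 := by
        intro w
        show w ∈ insert [] (below o.2 (d :: m)) ↔ _
        rw [Finset.mem_insert, mem_below]
      have hall2 : ∀ w, w ∈ ((enc (up o (d :: m))).2.filter
          (fun w => decide (m ∈ o.2) || !decide (w = m))) ++
          ((enc (low o (d :: m))).2.filter
            (fun w => decide (d :: m ∈ o.2) || !decide (w = []))).map (fun w => w ++ d :: m) ↔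
          w ∈ o.2 := by
        intro w
        rw [List.mem_append, List.mem_filter, mem_enc2 h1 h2, List.mem_map, hup2]
        simp only [Bool.or_eq_true, decide_eq_true_iff, Bool.not_eq_true',
          decide_eq_false_iff_not]
        constructor
        · rintro (⟨h5 | h5, h6⟩ | ⟨v, hv, rfl⟩)
          · subst h5
            rcases h6 with h6 | h6
            · exact h6
            · exact absurd rfl h6
          · exact h5.1
          · rw [List.mem_filter, mem_enc2 h1 h3, hlow2] at hv
            simp only [Bool.or_eq_true, decide_eq_true_iff, Bool.not_eq_true',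
              decide_eq_false_iff_not] at hv
            obtain ⟨h5 | h5, h6⟩ := hv
            · subst h5
              rcases h6 with h6 | h6
              · exact h6
              · exact absurd rfl h6
            · exact h5
        · intro h5
          by_cases h6 : d :: m <:+ w
          · obtain ⟨v, rfl⟩ := h6
            refine Or.inr ⟨v, ?_, rfl⟩
            rw [List.mem_filter, mem_enc2 h1 h3, hlow2]
            refine ⟨Or.inr h5, ?_⟩
            simp only [Bool.or_eq_true, decide_eq_true_iff, Bool.not_eq_true',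
              decide_eq_false_iff_not]
            by_cases h7 : v = []
            · subst h7
              exact Or.inl h5
            · exact Or.inr h7
          · refine Or.inl ⟨Or.inr ⟨h5, h6⟩, ?_⟩
            by_cases h7 : w = m
            · subst h7
              exact Or.inl h5
            · exact Or.inr h7
      refine Prod.ext ?_ ?_
      · refine norm_congr h1 (sm_of_sub h1 ho (fun w hw => (hall1 w).1 hw)) ?_
        ext w
        rw [List.mem_toFinset, hall1, Finset.toList_toFinset]
      · refine norm_congr h1 (sm_of_sub h1 ho (fun w hw => ho.sub ((hall2 w).1 hw))) ?_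
        ext w
        rw [List.mem_toFinset, hall2, Finset.toList_toFinset]
    unfold glues
    rw [List.mem_flatMap]
    refine ⟨m, hm, ?_⟩
    rw [List.mem_flatMap]
    refine ⟨d, List.mem_range.2 hd, ?_⟩
    rw [← key]
    cases decide (m ∈ o.2) <;> cases decide (d :: m ∈ o.2) <;> simp

theorem mem_candC {k : Kind} {a b z : Code} :
    z ∈ candC k a b ↔ validC k z = true ∧ kidsC k z = (some a, some b) := by
  unfold candC
  rw [mem_dedupC, List.mem_filter, Bool.and_eq_true, decide_eq_true_iff]
  exact ⟨fun h => h.2, fun h => ⟨mem_glues h1 h.1 h.2, h⟩⟩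

theorem length_candC (k : Kind) (a b : Code) : (candC k a b).length ≤ 360 := by
  cases hl : candC k a b with
  | nil => simp
  | cons z l =>
    have hz : z ∈ candC k a b := by rw [hl]; exact List.mem_cons_self
    obtain ⟨hz1, hz2⟩ := (mem_candC h1).1 hz
    obtain ⟨o, c, ho, _, hc, h2, h3, h4, _, _⟩ := kidsC_some h1 hz1 (a := a) (by rw [hz2]; simp)
    rw [h4] at hz2
    simp only [Prod.mk.injEq, Option.some.injEq] at hz2
    have h5 : a.2.length ≤ 15 := by
      rw [← hz2.1, (h1.2.2.2.2.1 k _ h2).2.2.2]
      exact h2.card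
    rw [← hl]
    unfold candC
    refine (length_dedupC _).trans ((List.length_filter_le _ _).trans ?_)
    unfold glues
    rw [List.length_flatMap]
    have h6 : (a.2.map (fun m => ((List.range (nd k)).flatMap fun d =>
        [glueC a b m d true true, glueC a b m d true false, glueC a b m d false true,
          glueC a b m d false false]).length)) = List.replicate a.2.length (nd k * 4) := by
      rw [List.eq_replicate_iff]
      refine ⟨List.length_map _, ?_⟩
      intro x hx
      obtain ⟨m, _, rfl⟩ := List.mem_map.1 hx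
      rw [List.length_flatMap]
      simp
    rw [h6, List.sum_replicate, smul_eq_mul]
    have h7 := nd_le k
    calc a.2.length * (nd k * 4) ≤ 15 * (6 * 4) := Nat.mul_le_mul h5 (Nat.mul_le_mul_right _ h7)
      _ = 360 := by norm_num

/-- Codes of objects, second part. -/
theorem code2_main : S_code2 := by
  have hpt : enc pt = ([[]], [[]]) := h1.2.2.2.2.2.2.1
  refine ⟨kidsC_enc h1, fun k a b z => mem_candC h1, fun k a b => nodup_dedupC _,
    length_candC h1, ?_, ?_⟩
  · intro k
    rw [← hpt]
    refine ⟨valid_enc h1 (ok_pt k), ?_⟩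
    rw [kidsC_enc h1 k pt (ok_pt k), kids_pt]
    rfl
  · intro k c a hc ha
    obtain ⟨o, b, ho, rfl, hb, h2, h3, h4, h5, h6⟩ := kidsC_some h1 hc ha
    rw [h4] at ha
    have e := (h1.2.2.2.2.1 k o ho).2.2.1
    rcases ha with ha | ha
    · simp only [Option.some.injEq] at ha
      rw [← ha, (h1.2.2.2.2.1 k _ h2).2.2.1, e]
      exact ⟨valid_enc h1 h2, h5⟩
    · simp only [Option.some.injEq] at ha
      rw [← ha, (h1.2.2.2.2.1 k _ h3).2.2.1, e]
      exact ⟨valid_enc h1 h3, h6⟩

end

/-- Codes of objects, second part. -/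
theorem code2 : S_kids → S_code1 → S_code2 := fun _ h => code2_main h

end Pool.Agent.W976.LT
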