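import Pool.Agent.W976.LT.Kids

/-!
# Lattice trees: the number of trees with given placed objects
-/

set_option autoImplicit false

namespace Pool.Agent.W976.LT

open Pool.Agent.W955.LT Classical

theorem eval_mono (P : Polynomial ℕ) {m n : ℕ} (h : m ≤ n) : P.eval m ≤ P.eval n := by
  rw [Polynomial.eval_eq_sum_range, Polynomial.eval_eq_sum_range]
  exact Finset.sum_le_sum fun i _ => Nat.mul_le_mul_left _ (Nat.pow_le_pow_left h i)

/-! ### Gluings -/

/-- a finite set containing all sets glued from the members of a list -/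
noncomputable def glu (q m : ℕ) : List (Finset (List ℕ)) → Finset (Finset (List ℕ))
  | [] => ∅
  | [B] => {B}
  | B :: Bs => ((glu q m Bs).filter (fun A => A.card ≤ m)).biUnion (fun A =>
      (A ×ˢ Finset.range q).image (fun p => A ∪ B.image (fun w => w ++ p.2 :: p.1)))

theorem glu_cons (q m : ℕ) (B : Finset (List ℕ)) (Bs : List (Finset (List ℕ))) (h : Bs ≠ []) :
    glu q m (B :: Bs) = ((glu q m Bs).filter (fun A => A.card ≤ m)).biUnion (fun A =>
      (A ×ˢ Finset.range q).image (fun p => A ∪ B.image (fun w => w ++ p.2 :: p.1))) := by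
  cases Bs with
  | nil => exact absurd rfl h
  | cons C Cs => rfl

theorem glued_ne {q : ℕ} {Bs : List (Finset (List ℕ))} {A : Finset (List ℕ)}
    (h : Glued q Bs A) : Bs ≠ [] := by
  cases h <;> simp

theorem mem_glu {q m : ℕ} {Bs : List (Finset (List ℕ))} {A : Finset (List ℕ)}
    (h : Glued q Bs A) (hm : A.card ≤ m) : A ∈ glu q m Bs := by
  induction h with
  | one B => exact Finset.mem_singleton_self _
  | glue B A Bs v d hg hv hd hB ih =>
    rw [glu_cons q m B Bs (glued_ne hg)]
    have h1 : A.card ≤ m := (Finset.card_le_card Finset.subset_union_left).trans hm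
    refine Finset.mem_biUnion.2 ⟨A, Finset.mem_filter.2 ⟨ih h1, h1⟩, ?_⟩
    exact Finset.mem_image.2 ⟨(v, d), Finset.mem_product.2 ⟨hv, Finset.mem_range.2 hd⟩, rfl⟩

theorem card_glu (q m : ℕ) (Bs : List (Finset (List ℕ))) :
    (glu q m Bs).card ≤ (m * q) ^ (Bs.length - 1) := by
  induction Bs with
  | nil => simp [glu]
  | cons B Bs ih =>
    by_cases h : Bs = []
    · subst h
      simp [glu]
    · rw [glu_cons q m B Bs h]
      have hl : 0 < Bs.length := List.length_pos_iff.2 h
      have h1 : (B :: Bs).length - 1 = (Bs.length - 1) + 1 := by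
        rw [List.length_cons]; omega
      rw [h1, pow_succ]
      refine (Finset.card_biUnion_le_card_mul _ _ (m * q) ?_).trans
        (Nat.mul_le_mul_right _ ((Finset.card_filter_le _ _).trans ih))
      intro A hA
      refine Finset.card_image_le.trans ?_
      rw [Finset.card_product, Finset.card_range]
      exact Nat.mul_le_mul_right _ (Finset.mem_filter.1 hA).2

theorem card_glued {q : ℕ} {Bs : List (Finset (List ℕ))} {A : Finset (List ℕ)}
    (h : Glued q Bs A) : (Bs.map Finset.card).sum = A.card := by
  induction h with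
  | one B => simp
  | glue B A Bs v d hg hv hd hB ih =>
    rw [List.map_cons, List.sum_cons, ih, Finset.card_union_of_disjoint]
    · rw [Finset.card_image_of_injective, add_comm]
      intro w w' hw
      exact List.append_cancel_right hw
    · rw [Finset.disjoint_right]
      intro x hx
      obtain ⟨w, hw, rfl⟩ := Finset.mem_image.1 hx
      exact hB w hw

/-! ### Lists of trees -/

/-- the lists of `K` trees with total size `m` -/
noncomputable def lists (k : Kind) : ℕ → ℕ → Finset (List (Finset (List ℕ)))
  | 0, m => if m = 0 then {[]} else ∅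
  | K + 1, m => (Finset.range (m + 1)).biUnion (fun j =>
      (trees k j ×ˢ lists k K (m - j)).image (fun p => p.1 :: p.2))

theorem mem_lists {k : Kind} {K m : ℕ} {Bs : List (Finset (List ℕ))} :
    Bs ∈ lists k K m ↔ Bs.length = K ∧ (∀ B ∈ Bs, Tr k B) ∧ (Bs.map Finset.card).sum = m := by
  induction K generalizing m Bs with
  | zero =>
    unfold lists
    split_ifs with h
    · rw [Finset.mem_singleton]
      constructor
      · rintro rfl; simp [h]
      · rintro ⟨h1, _⟩; exact List.length_eq_zero_iff.1 h1
    · simp only [Finset.notMem_empty, false_iff]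
      rintro ⟨h1, _, h2⟩
      rw [List.length_eq_zero_iff.1 h1] at h2
      exact h h2.symm
  | succ K ih =>
    unfold lists
    simp only [Finset.mem_biUnion, Finset.mem_range, Finset.mem_image, Finset.mem_product]
    constructor
    · rintro ⟨j, hj, ⟨B, Bs'⟩, ⟨h1, h2⟩, rfl⟩
      rw [trees_iff] at h1
      rw [ih] at h2
      refine ⟨by rw [List.length_cons, h2.1], ?_, ?_⟩
      · intro C hC
        rcases List.mem_cons.1 hC with rfl | hC
        · exact h1.1
        · exact h2.2.1 C hC
      · rw [List.map_cons, List.sum_cons, h2.2.2, h1.2]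
        omega
    · rintro ⟨h1, h2, h3⟩
      cases Bs with
      | nil => simp at h1
      | cons B Bs =>
        rw [List.map_cons, List.sum_cons] at h3
        refine ⟨B.card, by omega, (B, Bs), ⟨?_, ?_⟩, rfl⟩
        · exact (trees_iff k _ _).2 ⟨h2 B List.mem_cons_self, rfl⟩
        · rw [ih]
          refine ⟨?_, fun C hC => h2 C (List.mem_cons_of_mem _ hC), ?_⟩
          · rw [List.length_cons] at h1
            show Bs.length = K
            omega
          · show (Bs.map Finset.card).sum = m - B.card
            omega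

theorem tn_zero (k : Kind) : tn k 0 = 0 := by
  unfold tn
  rw [Finset.card_eq_zero, Finset.eq_empty_iff_forall_notMem]
  intro A hA
  obtain ⟨h1, h2⟩ := (trees_iff k 0 A).1 hA
  have h3 := h1.nil
  rw [Finset.card_eq_zero.1 h2] at h3
  simp at h3

theorem lists_zero (k : Kind) (K : ℕ) (hK : 1 ≤ K) : lists k K 0 = ∅ := by
  rw [Finset.eq_empty_iff_forall_notMem]
  intro Bs hBs
  obtain ⟨h1, h2, h3⟩ := mem_lists.1 hBs
  cases Bs with
  | nil => simp at h1; omega
  | cons B Bs =>
    have h4 := h2 B List.mem_cons_self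
    have h5 : 0 < B.card := Finset.card_pos.2 ⟨[], h4.nil⟩
    rw [List.map_cons, List.sum_cons] at h3
    omega

theorem card_lists_succ (k : Kind) (K m : ℕ) :
    (lists k (K + 1) m).card ≤ ∑ j ∈ Finset.range (m + 1), tn k j * (lists k K (m - j)).card := by
  show ((Finset.range (m + 1)).biUnion (fun j =>
      (trees k j ×ˢ lists k K (m - j)).image (fun p => p.1 :: p.2))).card ≤ _
  refine Finset.card_biUnion_le.trans (Finset.sum_le_sum fun j _ => ?_)
  exact Finset.card_image_le.trans (Finset.card_product _ _).le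

theorem card_lists {k : Kind} {M Q : ℕ}
    (hQ : ∀ a b, 1 ≤ a → 1 ≤ b → a + b ≤ M → tn k a * tn k b ≤ Q * tn k (a + b)) (K : ℕ) :
    ∀ m, 1 ≤ m → m ≤ M → (lists k (K + 1) m).card ≤ ((M + 1) * (Q + 1)) ^ (K + 1) * tn k m := by
  induction K with
  | zero =>
    intro m hm hmM
    refine (card_lists_succ k 0 m).trans ?_
    have h1 : ∑ j ∈ Finset.range (m + 1), tn k j * (lists k 0 (m - j)).card = tn k m := by
      rw [Finset.sum_range_succ, Finset.sum_eq_zero, zero_add]
      · have : m - m = 0 := Nat.sub_self m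
        rw [this]
        simp [lists]
      · intro j hj
        have h2 : m - j ≠ 0 := by
          have := Finset.mem_range.1 hj
          omega
        simp [lists, h2]
    rw [h1]
    exact Nat.le_mul_of_pos_left _ (by positivity)
  | succ K ih =>
    intro m hm hmM
    refine (card_lists_succ k (K + 1) m).trans ?_
    set C := (M + 1) * (Q + 1) with hC
    have h1 : ∀ j ∈ Finset.range (m + 1), tn k j * (lists k (K + 1) (m - j)).card ≤
        C ^ (K + 1) * ((Q + 1) * tn k m) := by
      intro j hj
      have hj' := Finset.mem_range.1 hj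
      by_cases h0 : j = 0
      · rw [h0, tn_zero, zero_mul]; exact Nat.zero_le _
      · by_cases h2 : j = m
        · rw [h2, Nat.sub_self, lists_zero k (K + 1) (by omega), Finset.card_empty, mul_zero]
          exact Nat.zero_le _
        · have h3 := ih (m - j) (by omega) (by omega)
          have h4 := hQ j (m - j) (by omega) (by omega) (by omega)
          have h5 : j + (m - j) = m := by omega
          rw [h5] at h4
          calc tn k j * (lists k (K + 1) (m - j)).card ≤ tn k j * (C ^ (K + 1) * tn k (m - j)) :=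
                Nat.mul_le_mul_left _ h3
            _ = C ^ (K + 1) * (tn k j * tn k (m - j)) := by ring
            _ ≤ C ^ (K + 1) * ((Q + 1) * tn k m) := by
                refine Nat.mul_le_mul_left _ (h4.trans (Nat.mul_le_mul_right _ (Nat.le_succ _)))
    refine (Finset.sum_le_sum h1).trans ?_
    rw [Finset.sum_const, Finset.card_range, smul_eq_mul]
    calc (m + 1) * (C ^ (K + 1) * ((Q + 1) * tn k m)) ≤
          (M + 1) * (C ^ (K + 1) * ((Q + 1) * tn k m)) := Nat.mul_le_mul_right _ (by omega)
      _ = C ^ (K + 1 + 1) * tn k m := by rw [hC]; ring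

/-! ### Lists with prescribed members -/

/-- the members `x.1` occur in the list at distinct places outside `D` -/
def R (xs : List Obj) (D : Finset ℕ) (Bs : List (Finset (List ℕ))) : Prop :=
  ∃ is : List ℕ, is.Nodup ∧ (∀ i ∈ is, i ∉ D) ∧ List.Forall₂ (fun x i => Bs[i]? = some x.1) xs is

theorem R_cons {x : Obj} {xs : List Obj} {D : Finset ℕ} {Bs : List (Finset (List ℕ))}
    (h : R (x :: xs) D Bs) : ∃ i < Bs.length, Bs[i]? = some x.1 ∧ R xs (insert i D) Bs := by
  obtain ⟨is, h1, h2, h3⟩ := h
  cases h3 with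
  | @cons _ i _ is h4 h5 =>
    refine ⟨i, ?_, h4, is, (List.nodup_cons.1 h1).2, ?_, h5⟩
    · exact (List.getElem?_eq_some_iff.1 h4).1
    · intro j hj
      rw [Finset.mem_insert, not_or]
      refine ⟨?_, h2 j (List.mem_cons_of_mem _ hj)⟩
      rintro rfl
      exact (List.nodup_cons.1 h1).1 hj

theorem R_set {xs : List Obj} {D : Finset ℕ} {Bs : List (Finset (List ℕ))} {i : ℕ}
    (C : Finset (List ℕ)) (h : R xs (insert i D) Bs) : R xs (insert i D) (Bs.set i C) := by
  obtain ⟨is, h1, h2, h3⟩ := h
  refine ⟨is, h1, h2, ?_⟩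
  have h4 : ∀ j ∈ is, j ≠ i := by
    rintro j hj rfl
    exact h2 j hj (Finset.mem_insert_self _ _)
  clear h1 h2
  induction h3 with
  | nil => exact List.Forall₂.nil
  | @cons x j xs is h5 _ ih =>
    refine List.Forall₂.cons ?_ (ih fun e he => h4 e (List.mem_cons_of_mem _ he))
    rw [List.getElem?_set_ne (h4 j List.mem_cons_self).symm]
    exact h5

theorem set_mem_lists {k : Kind} {K m : ℕ} {Bs : List (Finset (List ℕ))} {i : ℕ}
    {B C : Finset (List ℕ)} (h : Bs ∈ lists k K m) (hi : Bs[i]? = some B) (hC : Tr k C)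
    (hc : C.card = B.card) : Bs.set i C ∈ lists k K m := by
  obtain ⟨h1, h2, h3⟩ := mem_lists.1 h
  refine mem_lists.2 ⟨by rw [List.length_set, h1], ?_, ?_⟩
  · intro E hE
    rcases List.mem_or_eq_of_mem_set hE with h4 | h4
    · exact h2 E h4
    · rw [h4]; exact hC
  · rw [List.map_set, hc, ← h3]
    congr 1
    obtain ⟨h5, h6⟩ := List.getElem?_eq_some_iff.1 hi
    apply List.ext_getElem?
    intro j
    by_cases hj : i = j
    · subst hj
      rw [List.getElem?_set_self (by rw [List.length_map]; exact h5), List.getElem?_map, hi]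
      rfl
    · rw [List.getElem?_set_ne hj]

theorem card_R (k : Kind) (K m : ℕ) (xs : List Obj) : ∀ D : Finset ℕ,
    ((lists k K m).filter (fun Bs => R xs D Bs)).card * (xs.map (fun x => tn k x.1.card)).prod ≤
      K ^ xs.length * (lists k K m).card := by
  induction xs with
  | nil =>
    intro D
    simp only [List.map_nil, List.prod_nil, List.length_nil, pow_zero, mul_one, one_mul]
    exact Finset.card_filter_le _ _
  | cons x xs ih =>
    intro D
    rw [List.map_cons, List.prod_cons, List.length_cons]
    set TT := (xs.map (fun x => tn k x.1.card)).prod with hTT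
    have h1 : (lists k K m).filter (fun Bs => R (x :: xs) D Bs) ⊆
        (Finset.range K).biUnion (fun i => (lists k K m).filter
          (fun Bs => Bs[i]? = some x.1 ∧ R xs (insert i D) Bs)) := by
      intro Bs hBs
      obtain ⟨h2, h3⟩ := Finset.mem_filter.1 hBs
      obtain ⟨i, hi, h4, h5⟩ := R_cons h3
      refine Finset.mem_biUnion.2 ⟨i, ?_, Finset.mem_filter.2 ⟨h2, h4, h5⟩⟩
      rw [Finset.mem_range, ← (mem_lists.1 h2).1]
      exact hi
    have h2 : ∀ i ∈ Finset.range K, ((lists k K m).filter
        (fun Bs => Bs[i]? = some x.1 ∧ R xs (insert i D) Bs)).card * (tn k x.1.card * TT) ≤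
        K ^ xs.length * (lists k K m).card := by
      intro i _
      refine le_trans ?_ (ih (insert i D))
      rw [← mul_assoc]
      refine Nat.mul_le_mul_right _ ?_
      unfold tn
      rw [← Finset.card_product]
      refine Finset.card_le_card_of_injOn (fun p => p.1.set i p.2) ?_ ?_
      · intro p hp
        obtain ⟨h3, h4⟩ := Finset.mem_product.1 (Finset.mem_coe.1 hp)
        obtain ⟨h5, h6, h7⟩ := Finset.mem_filter.1 h3
        obtain ⟨h8, h9⟩ := (trees_iff _ _ _).1 h4
        exact Finset.mem_coe.2 (Finset.mem_filter.2 ⟨set_mem_lists h5 h6 h8 h9, R_set _ h7⟩)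
      · intro p hp p' hp' h
        obtain ⟨h3, h4⟩ := Finset.mem_product.1 (Finset.mem_coe.1 hp)
        obtain ⟨h5, h6, h7⟩ := Finset.mem_filter.1 h3
        obtain ⟨h3', h4'⟩ := Finset.mem_product.1 (Finset.mem_coe.1 hp')
        obtain ⟨h5', h6', h7'⟩ := Finset.mem_filter.1 h3'
        simp only at h
        have hl : i < p.1.length := (List.getElem?_eq_some_iff.1 h6).1
        have hl' : i < p'.1.length := (List.getElem?_eq_some_iff.1 h6').1
        have e2 : p.2 = p'.2 := by
          have h8 := congrArg (fun l => l[i]?) h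
          rw [List.getElem?_set_self hl, List.getElem?_set_self hl'] at h8
          exact Option.some.inj h8
        have e1 : p.1 = p'.1 := by
          apply List.ext_getElem?
          intro j
          by_cases hj : i = j
          · subst hj; rw [h6, h6']
          · have h8 := congrArg (fun l => l[j]?) h
            rw [List.getElem?_set_ne hj, List.getElem?_set_ne hj] at h8
            exact h8
        exact Prod.ext e1 e2
    calc _ ≤ (∑ i ∈ Finset.range K, ((lists k K m).filter
          (fun Bs => Bs[i]? = some x.1 ∧ R xs (insert i D) Bs)).card) * (tn k x.1.card * TT) :=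
          Nat.mul_le_mul_right _ ((Finset.card_le_card h1).trans Finset.card_biUnion_le)
      _ = ∑ i ∈ Finset.range K, ((lists k K m).filter
          (fun Bs => Bs[i]? = some x.1 ∧ R xs (insert i D) Bs)).card * (tn k x.1.card * TT) := by
          rw [Finset.sum_mul]
      _ ≤ ∑ i ∈ Finset.range K, K ^ xs.length * (lists k K m).card := Finset.sum_le_sum h2
      _ = _ := by rw [Finset.sum_const, Finset.card_range, smul_eq_mul]; ring

/-! ### The number of placed objects -/

theorem placed_le (l : List (Obj × List ℕ)) : ∀ A : Finset (List ℕ),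
    (∀ s ∈ l, (s.1.1.image (fun w => w ++ s.2)) ⊆ A ∧ s.1.1.Nonempty) →
    l.Pairwise (fun s t =>
      Disjoint (s.1.1.image (fun w => w ++ s.2)) (t.1.1.image (fun w => w ++ t.2))) →
    l.length ≤ A.card := by
  induction l with
  | nil => intro A _ _; exact Nat.zero_le _
  | cons s l ih =>
    intro A h1 h2
    obtain ⟨h3, h4⟩ := h1 s List.mem_cons_self
    rw [List.pairwise_cons] at h2
    have h5 := ih (A \ s.1.1.image (fun w => w ++ s.2)) (by
      intro t ht
      refine ⟨?_, (h1 t (List.mem_cons_of_mem _ ht)).2⟩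
      rw [Finset.subset_sdiff]
      exact ⟨(h1 t (List.mem_cons_of_mem _ ht)).1, (h2.1 t ht).symm⟩) h2.2
    rw [Finset.card_sdiff_of_subset h3] at h5
    have h6 : 0 < (s.1.1.image (fun w => w ++ s.2)).card :=
      Finset.card_pos.2 (h4.image _)
    have h7 := Finset.card_le_card h3
    rw [List.length_cons]
    omega

theorem count_main (hC : S_concat) (hG : S_glue) : S_count := by
  obtain ⟨P, hP⟩ := hC
  refine ⟨(100 * Polynomial.X) ^ 2 *
    (6 * Polynomial.X * ((Polynomial.X + 1) * (P + 1))) ^ 100, ?_⟩
  intro k xs m hxs hok hm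
  set s := xs.length with hs
  have hs1 : 1 ≤ s := List.length_pos_iff.2 hxs
  set F := (trees k m).filter (fun A => ∃ S us, Ok k (A, S) ∧ PlacedL (A, S) xs us) with hF
  set TT := (xs.map (fun x => tn k x.1.card)).prod with hTT
  have hev : ((100 * Polynomial.X) ^ 2 *
      (6 * Polynomial.X * ((Polynomial.X + 1) * (P + 1))) ^ 100 : Polynomial ℕ).eval m =
      (100 * m) ^ 2 * (6 * m * ((m + 1) * (P.eval m + 1))) ^ 100 := by
    simp only [Polynomial.eval_mul, Polynomial.eval_add, Polynomial.eval_one,
      Polynomial.eval_pow, Polynomial.eval_X, Polynomial.eval_ofNat]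
  rw [hev]
  rcases F.eq_empty_or_nonempty with h0 | ⟨A0, hA0⟩
  · rw [h0, Finset.card_empty, zero_mul]; exact Nat.zero_le _
  -- the number of objects is at most `m`
  have hsm : s ≤ m := by
    obtain ⟨h1, S, us, h2, h3⟩ := Finset.mem_filter.1 hA0
    have h4 := h3.1.length_eq
    have h5 := placed_le (xs.zip us) A0 (by
      intro t ht
      refine ⟨?_, ?_⟩
      · have h6 := (List.forall₂_iff_zip.1 h3.1).2 ht
        intro v hv
        obtain ⟨w, hw, rfl⟩ := Finset.mem_image.1 hv
        exact h6.sub w hw
      · exact ⟨[], (hok t.1 (List.of_mem_zip ht).1).tr.nil⟩) h3.2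
    rw [List.length_zip, ← h4, Nat.min_self, ((trees_iff k m A0).1 h1).2] at h5
    exact h5
  set C := (m + 1) * (P.eval m + 1) with hCdef
  have hC1 : 1 ≤ C := Nat.mul_pos (Nat.succ_pos _) (Nat.succ_pos _)
  have hlists : ∀ K, (lists k (K + 1) m).card ≤ C ^ (K + 1) * tn k m := by
    intro K
    refine card_lists (k := k) (M := m) (Q := P.eval m) ?_ K m hm le_rfl
    intro a b ha hb hab
    exact (hP k a b ha hb).trans (Nat.mul_le_mul_right _ (eval_mono P hab))
  have hsub : F ⊆ (Finset.range (100 * s)).biUnion (fun K =>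
      ((lists k (K + 1) m).filter (fun Bs => R xs ∅ Bs)).biUnion
        (fun Bs => glu (nd k) m Bs)) := by
    intro A hA
    obtain ⟨h1, S, us, h2, h3⟩ := Finset.mem_filter.1 hA
    obtain ⟨Bs, g1, g2, g3, is, g4, g5⟩ := hG k A S xs us h2 hok hxs h3
    have hcard := ((trees_iff k m A).1 h1).2
    have hne : 0 < Bs.length := List.length_pos_iff.2 (glued_ne g1)
    refine Finset.mem_biUnion.2 ⟨Bs.length - 1, Finset.mem_range.2 (by omega), ?_⟩
    have h5 : Bs.length - 1 + 1 = Bs.length := by omega
    rw [h5]
    refine Finset.mem_biUnion.2 ⟨Bs, Finset.mem_filter.2 ⟨mem_lists.2 ⟨rfl, g2, ?_⟩, ?_⟩, ?_⟩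
    · rw [card_glued g1, hcard]
    · exact ⟨is, g4, fun _ _ => Finset.notMem_empty _, g5⟩
    · exact mem_glu g1 hcard.le
  have h6m : 1 ≤ 6 * m := by omega
  have hterm : ∀ K ∈ Finset.range (100 * s), (((lists k (K + 1) m).filter
      (fun Bs => R xs ∅ Bs)).biUnion (fun Bs => glu (nd k) m Bs)).card * TT ≤
      (100 * m) ^ s * (6 * m * C) ^ (100 * s) * tn k m := by
    intro K hK
    have hK' := Finset.mem_range.1 hK
    have h1 : (((lists k (K + 1) m).filter
      (fun Bs => R xs ∅ Bs)).biUnion (fun Bs => glu (nd k) m Bs)).card ≤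
      ((lists k (K + 1) m).filter (fun Bs => R xs ∅ Bs)).card * (6 * m) ^ K := by
      refine Finset.card_biUnion_le_card_mul _ _ _ ?_
      intro Bs hBs
      have h2 := (mem_lists.1 (Finset.mem_filter.1 hBs).1).1
      refine (card_glu (nd k) m Bs).trans ?_
      rw [h2, Nat.add_sub_cancel]
      refine Nat.pow_le_pow_left ?_ _
      rw [mul_comm]
      exact Nat.mul_le_mul_right _ (nd_le k)
    have h2 := card_R k (K + 1) m xs ∅
    rw [← hTT, ← hs] at h2
    calc _ ≤ (((lists k (K + 1) m).filter (fun Bs => R xs ∅ Bs)).card * (6 * m) ^ K) * TT :=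
          Nat.mul_le_mul_right _ h1
      _ = (6 * m) ^ K * (((lists k (K + 1) m).filter (fun Bs => R xs ∅ Bs)).card * TT) := by ring
      _ ≤ (6 * m) ^ K * ((K + 1) ^ s * (lists k (K + 1) m).card) := Nat.mul_le_mul_left _ h2
      _ ≤ (6 * m) ^ (100 * s) * ((100 * m) ^ s * (C ^ (100 * s) * tn k m)) := by
          refine Nat.mul_le_mul (Nat.pow_le_pow_right h6m hK'.le)
            (Nat.mul_le_mul (Nat.pow_le_pow_left (by omega) _) ?_)
          refine (hlists K).trans (Nat.mul_le_mul_right _ ?_)
          exact Nat.pow_le_pow_right hC1 (by omega)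
      _ = _ := by rw [mul_pow (6 * m) C]; ring
  calc F.card * TT ≤ (∑ K ∈ Finset.range (100 * s), (((lists k (K + 1) m).filter
      (fun Bs => R xs ∅ Bs)).biUnion (fun Bs => glu (nd k) m Bs)).card) * TT :=
        Nat.mul_le_mul_right _ ((Finset.card_le_card hsub).trans Finset.card_biUnion_le)
    _ ≤ ∑ K ∈ Finset.range (100 * s), (100 * m) ^ s * (6 * m * C) ^ (100 * s) * tn k m := by
        rw [Finset.sum_mul]
        exact Finset.sum_le_sum hterm
    _ = (100 * s) * ((100 * m) ^ s * (6 * m * C) ^ (100 * s) * tn k m) := by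
        rw [Finset.sum_const, Finset.card_range, smul_eq_mul]
    _ ≤ (100 * m) ^ s * ((100 * m) ^ s * (6 * m * C) ^ (100 * s) * tn k m) := by
        refine Nat.mul_le_mul_right _ ?_
        calc 100 * s ≤ (100 * m) ^ 1 := by rw [pow_one]; omega
          _ ≤ (100 * m) ^ s := Nat.pow_le_pow_right (by omega) hs1
    _ = _ := by rw [mul_pow ((100 * m) ^ 2), ← pow_mul, ← pow_mul]; ring

/-- The number of trees with given placed objects. -/
theorem count : S_trees → S_kids → S_concat → S_glue → S_count :=
  fun _ _ h3 h4 => count_main h3 h4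

end Pool.Agent.W976.LT
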