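import Pool.Agent.W976.LT.Kids

/-!
# Lattice trees: a tree with placed objects is glued from few blocks
-/

set_option autoImplicit false

namespace Pool.Agent.W976.LT

open Pool.Agent.W955.LT Classical

/-- the longest suffix in `τ` -/
noncomputable def lts (τ : Finset (List ℕ)) : List ℕ → List ℕ
  | [] => []
  | d :: w => if d :: w ∈ τ then d :: w else lts τ w

theorem lts_suffix (τ : Finset (List ℕ)) (w : List ℕ) : lts τ w <:+ w := by
  induction w with
  | nil => exact List.suffix_rfl
  | cons d w ih =>
    unfold lts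
    split_ifs
    · exact List.suffix_rfl
    · exact ih.trans (List.suffix_cons _ _)

theorem lts_mem {τ : Finset (List ℕ)} (h : [] ∈ τ) (w : List ℕ) : lts τ w ∈ τ := by
  induction w with
  | nil => exact h
  | cons d w ih =>
    unfold lts
    split_ifs with h1
    · exact h1
    · exact ih

theorem lts_of_mem {τ : Finset (List ℕ)} {w : List ℕ} (h : w ∈ τ) : lts τ w = w := by
  cases w with
  | nil => rfl
  | cons d w => unfold lts; rw [if_pos h]

theorem lts_cons {τ : Finset (List ℕ)} {d : ℕ} {w t : List ℕ} (h : lts τ (d :: (w ++ t)) = t) :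
    d :: (w ++ t) ∉ τ ∧ lts τ (w ++ t) = t := by
  unfold lts at h
  split_ifs at h with h1
  · exfalso
    have := congrArg List.length h
    simp only [List.length_cons, List.length_append] at this
    omega
  · exact ⟨h1, h⟩

/-- the block of `t` -/
noncomputable def block (A τ : Finset (List ℕ)) (t : List ℕ) : Finset (List ℕ) :=
  (below A t).filter (fun w => lts τ (w ++ t) = t)

theorem mem_block {A τ : Finset (List ℕ)} {t w : List ℕ} :
    w ∈ block A τ t ↔ w ++ t ∈ A ∧ lts τ (w ++ t) = t := by
  unfold block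
  rw [Finset.mem_filter, mem_below]

theorem block_tr {k : Kind} {A τ : Finset (List ℕ)} (hA : Tr k A) {t : List ℕ} (ht : t ∈ τ)
    (htA : t ∈ A) : Tr k (block A τ t) := by
  refine ⟨?_, ?_, ?_, ?_⟩
  · exact mem_block.2 ⟨htA, lts_of_mem ht⟩
  · intro d w h
    obtain ⟨h1, h2⟩ := mem_block.1 h
    exact mem_block.2 ⟨hA.tail d _ h1, (lts_cons h2).2⟩
  · intro d w h
    exact hA.dir d _ (mem_block.1 h).1
  · intro v hv w hw h
    have h3 := (mem_block.1 (Finset.mem_coe.1 hv)).1
    have h4 := (mem_block.1 (Finset.mem_coe.1 hw)).1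
    have h5 : pos k (v ++ t) = pos k (w ++ t) := by rw [pos_append, pos_append, h]
    exact List.append_cancel_right (hA.inj (Finset.mem_coe.2 h3) (Finset.mem_coe.2 h4) h5)

/-- the general gluing lemma -/
theorem glue_gen {k : Kind} {A τ : Finset (List ℕ)} (hA : Tr k A) (h0 : [] ∈ τ) (hτA : τ ⊆ A)
    (n : ℕ) : ∀ σ : Finset (List ℕ), σ.card = n + 1 → σ ⊆ τ → [] ∈ σ →
    (∀ t ∈ σ, ∀ t' ∈ τ, t' <:+ t → t' ∈ σ) →
    ∃ L : List (List ℕ), L.Nodup ∧ L.toFinset = σ ∧
      Glued (nd k) (L.map (block A τ)) (A.filter (fun w => lts τ w ∈ σ)) := by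
  induction n with
  | zero =>
    intro σ hc hs h1 _
    obtain ⟨x, hx⟩ := Finset.card_eq_one.1 hc
    have h2 : x = [] := by
      rw [hx, Finset.mem_singleton] at h1
      exact h1.symm
    subst h2
    refine ⟨[[]], List.nodup_singleton _, ?_, ?_⟩
    · rw [hx]; rfl
    · have h3 : A.filter (fun w => lts τ w ∈ σ) = block A τ [] := by
        ext w
        rw [Finset.mem_filter, mem_block, List.append_nil, hx, Finset.mem_singleton]
      rw [h3]
      exact Glued.one _
  | succ n ih =>
    intro σ hc hs h1 hcl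
    obtain ⟨t, ht, hmax⟩ := Finset.exists_max_image σ List.length ⟨[], h1⟩
    have ht0 : t ≠ [] := by
      rintro rfl
      have : σ ⊆ {[]} := by
        intro w hw
        have h2 := hmax w hw
        rw [List.length_nil] at h2
        rw [Finset.mem_singleton]
        exact List.length_eq_zero_iff.1 (by omega)
      have h3 := Finset.card_le_card this
      rw [Finset.card_singleton] at h3
      omega
    obtain ⟨L, hL1, hL2, hL3⟩ := ih (σ.erase t) (by rw [Finset.card_erase_of_mem ht]; omega)
      ((Finset.erase_subset _ _).trans hs) (Finset.mem_erase.2 ⟨ht0.symm, h1⟩) (by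
        intro s hs' t' ht' hsuf
        have h2 := (Finset.mem_erase.1 hs')
        refine Finset.mem_erase.2 ⟨?_, hcl s h2.2 t' ht' hsuf⟩
        rintro rfl
        have h3 := hmax s h2.2
        exact h2.1 (hsuf.eq_of_length (le_antisymm hsuf.length_le h3)).symm)
    cases t with
    | nil => exact absurd rfl ht0
    | cons d v =>
      refine ⟨(d :: v) :: L, ?_, ?_, ?_⟩
      · refine List.nodup_cons.2 ⟨?_, hL1⟩
        rw [← List.mem_toFinset, hL2]
        exact Finset.notMem_erase _ _
      · rw [List.toFinset_cons, hL2, Finset.insert_erase ht]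
      · rw [List.map_cons]
        have htA := hτA (hs ht)
        have h3 : A.filter (fun w => lts τ w ∈ σ) =
            A.filter (fun w => lts τ w ∈ σ.erase (d :: v)) ∪
              (block A τ (d :: v)).image (fun w => w ++ d :: v) := by
          ext w
          rw [Finset.mem_union, Finset.mem_filter, Finset.mem_filter, Finset.mem_image]
          constructor
          · rintro ⟨h4, h5⟩
            by_cases h6 : lts τ w = d :: v
            · right
              obtain ⟨s, hs⟩ := lts_suffix τ w
              rw [h6] at hs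
              refine ⟨s, mem_block.2 ?_, hs⟩
              rw [hs]
              exact ⟨h4, h6⟩
            · exact Or.inl ⟨h4, Finset.mem_erase.2 ⟨h6, h5⟩⟩
          · rintro (⟨h4, h5⟩ | ⟨s, h4, rfl⟩)
            · exact ⟨h4, Finset.mem_of_mem_erase h5⟩
            · obtain ⟨h5, h6⟩ := mem_block.1 h4
              exact ⟨h5, by rw [h6]; exact ht⟩
        rw [h3]
        refine Glued.glue _ _ _ v d hL3 ?_ (hA.dir d v htA) ?_
        · refine Finset.mem_filter.2 ⟨hA.tail d v htA, Finset.mem_erase.2 ⟨?_, ?_⟩⟩
          · intro h4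
            have h5 := (lts_suffix τ v).length_le
            rw [h4, List.length_cons] at h5
            omega
          · exact hcl (d :: v) ht _ (lts_mem h0 v)
              ((lts_suffix τ v).trans (List.suffix_cons _ _))
        · intro w hw h4
          have h5 := (Finset.mem_filter.1 h4).2
          rw [(mem_block.1 hw).2] at h5
          exact Finset.notMem_erase _ _ h5

/-- the tops of the blocks -/
noncomputable def tops (k : Kind) (A : Finset (List ℕ)) (l : List (Obj × List ℕ)) :
    Finset (List ℕ) :=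
  {[]} ∪ (l.map Prod.snd).toFinset ∪ l.toFinset.biUnion (fun s =>
    ((s.1.2 ×ˢ Finset.range (nd k)).filter
      (fun p => p.2 :: (p.1 ++ s.2) ∈ A ∧ p.2 :: p.1 ∉ s.1.1)).image
      (fun p => p.2 :: (p.1 ++ s.2)))

theorem card_tops (k : Kind) (A : Finset (List ℕ)) (l : List (Obj × List ℕ)) (hl : l ≠ [])
    (h : ∀ s ∈ l, s.1.2.card ≤ 15) : (tops k A l).card ≤ 100 * l.length := by
  have hlen : 0 < l.length := List.length_pos_iff.2 hl
  unfold tops
  have h1 : (l.toFinset.biUnion (fun s =>
    ((s.1.2 ×ˢ Finset.range (nd k)).filter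
      (fun p => p.2 :: (p.1 ++ s.2) ∈ A ∧ p.2 :: p.1 ∉ s.1.1)).image
      (fun p => p.2 :: (p.1 ++ s.2)))).card ≤ l.length * 90 := by
    refine (Finset.card_biUnion_le_card_mul _ _ 90 ?_).trans
      (Nat.mul_le_mul_right _ (List.toFinset_card_le _))
    intro s hs
    refine Finset.card_image_le.trans ((Finset.card_filter_le _ _).trans ?_)
    rw [Finset.card_product, Finset.card_range]
    have h2 := h s (List.mem_toFinset.1 hs)
    have h3 := nd_le k
    calc s.1.2.card * nd k ≤ 15 * 6 := Nat.mul_le_mul h2 h3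
      _ = 90 := by norm_num
  have h2 : (l.map Prod.snd).toFinset.card ≤ l.length :=
    (List.toFinset_card_le _).trans (List.length_map _).le
  refine (Finset.card_union_le _ _).trans ?_
  have h3 := Finset.card_union_le ({[]} : Finset (List ℕ)) (l.map Prod.snd).toFinset
  rw [Finset.card_singleton] at h3
  omega

theorem glue_main : S_glue := by
  intro k A S xs us hok hx hne hpl
  obtain ⟨hF, hPw⟩ := hpl
  set l := xs.zip us with hl
  have hlen := hF.length_eq
  have hllen : l.length = xs.length := by rw [hl, List.length_zip, ← hlen, Nat.min_self]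
  have hlne : l ≠ [] := by
    intro h
    rw [h] at hllen
    exact hne (List.length_eq_zero_iff.1 hllen.symm)
  have hpl : ∀ s ∈ l, Placed (A, S) s.1 s.2 := fun s hs => (List.forall₂_iff_zip.1 hF).2 hs
  have hokl : ∀ s ∈ l, Ok k s.1 := fun s hs => hx s.1 (List.of_mem_zip hs).1
  have hdis : ∀ s ∈ l, ∀ t ∈ l, ∀ w ∈ s.1.1, ∀ v ∈ t.1.1, w ++ s.2 = v ++ t.2 → s = t := by
    intro s hs t ht w hw v hv h
    by_contra hst
    have h1 := List.Pairwise.forall (R := fun s t : Obj × List ℕ =>
      Disjoint (s.1.1.image (fun w => w ++ s.2)) (t.1.1.image (fun w => w ++ t.2)))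
      hPw hs ht hst
    rw [Finset.disjoint_left] at h1
    refine h1 (Finset.mem_image_of_mem _ hw) ?_
    rw [h]
    exact Finset.mem_image_of_mem (fun w => w ++ t.2) hv
  set τ := tops k A l with hτ
  have h0 : [] ∈ τ := by
    rw [hτ]; unfold tops
    exact Finset.mem_union_left _ (Finset.mem_union_left _ (Finset.mem_singleton_self _))
  have hmu : ∀ s ∈ l, s.2 ∈ τ := by
    intro s hs
    rw [hτ]; unfold tops
    refine Finset.mem_union_left _ (Finset.mem_union_right _ ?_)
    rw [List.mem_toFinset]
    exact List.mem_map_of_mem hs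
  have hme : ∀ s ∈ l, ∀ w ∈ s.1.2, ∀ d, d :: (w ++ s.2) ∈ A → d :: w ∉ s.1.1 →
      d :: (w ++ s.2) ∈ τ := by
    intro s hs w hw d h1 h2
    rw [hτ]; unfold tops
    refine Finset.mem_union_right _ (Finset.mem_biUnion.2 ⟨s, List.mem_toFinset.2 hs, ?_⟩)
    refine Finset.mem_image.2 ⟨(w, d), Finset.mem_filter.2 ⟨Finset.mem_product.2
      ⟨hw, Finset.mem_range.2 (hok.tr.dir d _ h1)⟩, h1, h2⟩, rfl⟩
  have hcases : ∀ t ∈ τ, t = [] ∨ (∃ s ∈ l, t = s.2) ∨ ∃ s ∈ l, ∃ w ∈ s.1.2, ∃ d,
      t = d :: (w ++ s.2) ∧ d :: (w ++ s.2) ∈ A ∧ d :: w ∉ s.1.1 := by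
    intro t ht
    rw [hτ] at ht
    unfold tops at ht
    rcases Finset.mem_union.1 ht with ht | ht
    · rcases Finset.mem_union.1 ht with ht | ht
      · exact Or.inl (Finset.mem_singleton.1 ht)
      · right; left
        rw [List.mem_toFinset] at ht
        obtain ⟨s, hs, rfl⟩ := List.mem_map.1 ht
        exact ⟨s, hs, rfl⟩
    · right; right
      obtain ⟨s, hs, ht⟩ := Finset.mem_biUnion.1 ht
      obtain ⟨p, hp, rfl⟩ := Finset.mem_image.1 ht
      obtain ⟨h1, h2, h3⟩ := Finset.mem_filter.1 hp
      exact ⟨s, List.mem_toFinset.1 hs, p.1, (Finset.mem_product.1 h1).1, p.2, rfl, h2, h3⟩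
  have huA : ∀ s ∈ l, s.2 ∈ A := by
    intro s hs
    have := (hpl s hs).sub [] (hokl s hs).tr.nil
    exact this
  have hτA : τ ⊆ A := by
    intro t ht
    rcases hcases t ht with rfl | ⟨s, hs, rfl⟩ | ⟨s, hs, w, hw, d, rfl, h1, _⟩
    · exact hok.tr.nil
    · exact huA s hs
    · exact h1
  -- the block of a placed object is the object
  have hblock : ∀ s ∈ l, block A τ s.2 = s.1.1 := by
    intro s hs
    ext w
    rw [mem_block]
    constructor
    · rintro ⟨h1, h2⟩
      induction w with
      | nil => exact (hokl s hs).tr.nil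
      | cons d w ih =>
        rw [List.cons_append] at h1 h2
        obtain ⟨h3, h4⟩ := lts_cons h2
        have h5 := ih (hok.tr.tail d _ h1) h4
        by_contra h6
        exact h3 (hme s hs w ((hpl s hs).exit w h5 d h1 h6) d h1 h6)
    · intro hw
      refine ⟨(hpl s hs).sub w hw, ?_⟩
      induction w with
      | nil => exact lts_of_mem (hmu s hs)
      | cons d w ih =>
        have hw' := (hokl s hs).tr.tail d w hw
        have h1 := ih hw'
        have h2 : d :: (w ++ s.2) ∉ τ := by
          intro h3
          rcases hcases _ h3 with h4 | ⟨t, ht, h4⟩ | ⟨t, ht, v, hv, e, h4, _, h5⟩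
          · simp at h4
          · have h5 := hdis s hs t ht (d :: w) hw [] (hokl t ht).tr.nil h4
            rw [← h5] at h4
            have h6 := congrArg List.length h4
            simp only [List.length_cons, List.length_append] at h6
            omega
          · rw [List.cons.injEq] at h4
            have h6 := hdis s hs t ht w hw' v ((hokl t ht).sub hv) h4.2
            subst h6
            have h7 := List.append_cancel_right h4.2
            rw [← h4.1, ← h7] at h5
            exact h5 hw
        rw [List.cons_append]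
        unfold lts
        rw [if_neg h2]
        exact h1
  obtain ⟨n, hn⟩ : ∃ n, τ.card = n + 1 := by
    have : 0 < τ.card := Finset.card_pos.2 ⟨[], h0⟩
    exact ⟨τ.card - 1, by omega⟩
  obtain ⟨L, hL1, hL2, hL3⟩ := glue_gen hok.tr h0 hτA n τ hn (Finset.Subset.refl _) h0
    (fun _ _ t' ht' _ => ht')
  have hAf : A.filter (fun w => lts τ w ∈ τ) = A :=
    Finset.filter_true_of_mem (fun w _ => lts_mem h0 w)
  rw [hAf] at hL3
  have hLm : ∀ t, t ∈ L ↔ t ∈ τ := by
    intro t
    rw [← hL2, List.mem_toFinset]
  refine ⟨L.map (block A τ), hL3, ?_, ?_, us.map (fun u => L.idxOf u), ?_, ?_⟩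
  · intro B hB
    obtain ⟨t, ht, rfl⟩ := List.mem_map.1 hB
    have ht' := (hLm t).1 ht
    exact block_tr hok.tr ht' (hτA ht')
  · rw [List.length_map, ← List.toFinset_card_of_nodup hL1, hL2, ← hllen]
    exact card_tops k A l hlne (fun s hs => (hokl s hs).card)
  · have h1 : us.Nodup := by
      have h2 : l.Pairwise (fun s t => s.2 ≠ t.2) := by
        refine List.Pairwise.imp_of_mem ?_ hPw
        intro s t hs ht h3 h4
        rw [Finset.disjoint_left] at h3
        have h5 : s.2 ∈ s.1.1.image (fun w => w ++ s.2) :=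
          Finset.mem_image.2 ⟨[], (hokl s hs).tr.nil, rfl⟩
        refine h3 h5 ?_
        rw [h4]
        exact Finset.mem_image.2 ⟨[], (hokl t ht).tr.nil, rfl⟩
      have h3 : l.map Prod.snd = us := List.map_snd_zip (by omega)
      rw [← h3]
      exact List.pairwise_map.2 h2
    refine (List.nodup_map_iff_inj_on h1).2 ?_
    intro u hu v hv huv
    have hmem : ∀ u ∈ us, u ∈ L := by
      intro u hu
      have h3 : l.map Prod.snd = us := List.map_snd_zip (by omega)
      rw [← h3] at hu
      obtain ⟨s, hs, rfl⟩ := List.mem_map.1 hu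
      exact (hLm _).2 (hmu s hs)
    exact (List.idxOf_inj (hmem u hu)).1 huv
  · rw [List.forall₂_map_right_iff, List.forall₂_iff_zip]
    refine ⟨hlen, ?_⟩
    intro x u hxu
    have hs : (x, u) ∈ l := hxu
    have h1 : u ∈ L := (hLm _).2 (hmu _ hs)
    rw [List.getElem?_map, List.getElem?_idxOf h1, Option.map_some]
    exact congrArg some (hblock _ hs)

/-- A tree with placed objects is glued from few blocks, the placed trees being among them. -/
theorem glue : S_trees → S_kids → S_glue := fun _ _ => glue_main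

end Pool.Agent.W976.LT
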