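import Pool.Agent.W976.LT.Kids

/-!
# Lattice trees: every object with at least two vertices has a good address
-/

set_option autoImplicit false

namespace Pool.Agent.W976.LT

open Pool.Agent.W955.LT

/-- the weight of the subtree at `v` -/
def wt (A : Finset (List ℕ)) (f : List ℕ → ℕ) (v : List ℕ) : ℕ :=
  ∑ u ∈ A.filter (fun u => v <:+ u), f u

theorem wt_nil (A : Finset (List ℕ)) (f : List ℕ → ℕ) : wt A f [] = ∑ u ∈ A, f u := by
  unfold wt
  rw [Finset.filter_true_of_mem]
  intro u _
  exact List.nil_suffix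

theorem suffix_cases {v u : List ℕ} (h : v <:+ u) : u = v ∨ ∃ d, d :: v <:+ u := by
  obtain ⟨t, rfl⟩ := h
  rcases List.eq_nil_or_concat t with rfl | ⟨s, d, rfl⟩
  · exact Or.inl rfl
  · right
    refine ⟨d, s, ?_⟩
    simp

theorem sum_biUnion_le (s : Finset ℕ) (t : ℕ → Finset (List ℕ)) (f : List ℕ → ℕ) :
    ∑ u ∈ s.biUnion t, f u ≤ ∑ i ∈ s, ∑ u ∈ t i, f u := by
  classical
  induction s using Finset.induction_on with
  | empty => simp
  | @insert a s ha ih =>
    rw [Finset.biUnion_insert, Finset.sum_insert ha]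
    have h1 := Finset.sum_union_inter (s₁ := t a) (s₂ := s.biUnion t) (f := f)
    omega

theorem wt_le {k : Kind} {A : Finset (List ℕ)} (h : Tr k A) (f : List ℕ → ℕ) (v : List ℕ) :
    wt A f v ≤ f v + ∑ d ∈ Finset.range (nd k), wt A f (d :: v) := by
  classical
  have h1 : A.filter (fun u => v <:+ u) ⊆
      {v} ∪ (Finset.range (nd k)).biUnion (fun d => A.filter (fun u => d :: v <:+ u)) := by
    intro u hu
    obtain ⟨h2, h3⟩ := Finset.mem_filter.1 hu
    rcases suffix_cases h3 with h4 | ⟨d, h4⟩
    · exact Finset.mem_union_left _ (Finset.mem_singleton.2 h4)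
    · refine Finset.mem_union_right _ (Finset.mem_biUnion.2 ⟨d, ?_, Finset.mem_filter.2 ⟨h2, h4⟩⟩)
      exact Finset.mem_range.2 (h.dir d v (suffix_mem h h2 h4))
  unfold wt
  calc ∑ u ∈ A.filter (fun u => v <:+ u), f u
      ≤ ∑ u ∈ {v} ∪ (Finset.range (nd k)).biUnion
          (fun d => A.filter (fun u => d :: v <:+ u)), f u :=
        Finset.sum_le_sum_of_subset h1
    _ ≤ ∑ u ∈ {v}, f u + ∑ u ∈ (Finset.range (nd k)).biUnion
          (fun d => A.filter (fun u => d :: v <:+ u)), f u := by
        rw [← Finset.sum_union_inter]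
        exact Nat.le_add_right _ _
    _ ≤ _ := by
        rw [Finset.sum_singleton]
        refine Nat.add_le_add_left ?_ _
        exact sum_biUnion_le _ _ _

theorem balanced {k : Kind} {A : Finset (List ℕ)} (h : Tr k A) (f : List ℕ → ℕ)
    (hW : 1 ≤ wt A f []) : ∃ v ∈ A, wt A f [] ≤ 2 * wt A f v ∧
      (f v < wt A f v → ∃ c ∈ A, c ≠ [] ∧ 2 * wt A f c < wt A f [] ∧
        wt A f v ≤ f v + 6 * wt A f c) := by
  classical
  obtain ⟨v, hv, hmax⟩ := Finset.exists_max_image
    (A.filter (fun v => wt A f [] ≤ 2 * wt A f v)) List.length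
    ⟨[], Finset.mem_filter.2 ⟨h.nil, by omega⟩⟩
  obtain ⟨hvA, hv2⟩ := Finset.mem_filter.1 hv
  refine ⟨v, hvA, hv2, fun hf => ?_⟩
  have hsmall : ∀ d, 2 * wt A f (d :: v) < wt A f [] := by
    intro d
    by_contra hcon
    by_cases hd : d :: v ∈ A
    · have h1 := hmax (d :: v) (Finset.mem_filter.2 ⟨hd, not_lt.1 hcon⟩)
      rw [List.length_cons] at h1
      omega
    · have h1 : wt A f (d :: v) = 0 := by
        unfold wt
        rw [Finset.filter_false_of_mem, Finset.sum_empty]
        intro u hu h2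
        exact hd (suffix_mem h hu h2)
      omega
  have h1 := wt_le h f v
  by_contra hcon
  push Not at hcon
  have h2 : ∀ d ∈ Finset.range (nd k), 6 * wt A f (d :: v) ≤ wt A f v - f v - 1 := by
    intro d _
    by_cases hd : d :: v ∈ A
    · have h3 := hcon (d :: v) hd (by simp) (hsmall d)
      omega
    · have h3 : wt A f (d :: v) = 0 := by
        unfold wt
        rw [Finset.filter_false_of_mem, Finset.sum_empty]
        intro u hu h2
        exact hd (suffix_mem h hu h2)
      omega
  have h3 := Finset.sum_le_sum h2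
  rw [← Finset.mul_sum, Finset.sum_const, Finset.card_range, smul_eq_mul] at h3
  have h4 : nd k * (wt A f v - f v - 1) ≤ 6 * (wt A f v - f v - 1) :=
    Nat.mul_le_mul_right _ (nd_le k)
  omega

theorem good_main : S_good := by
  intro k o ho hm
  have hup : ∀ b, (up o b).1.card + (low o b).1.card = o.1.card := card_parts o
  by_cases h15 : o.2.card < 15
  · have hwt : ∀ b, wt o.1 (fun _ => 1) b = (low o b).1.card := by
      intro b
      show _ = (below o.1 b).card
      rw [card_below]
      unfold wt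
      rw [Finset.sum_const, smul_eq_mul, mul_one]
    have hW : wt o.1 (fun _ => 1) [] = o.1.card := by
      rw [wt_nil, Finset.sum_const, smul_eq_mul, mul_one]
    obtain ⟨v, hv, hv2, hv3⟩ := balanced ho.tr (fun _ => 1) (by rw [hW]; omega)
    rw [hW] at hv2 hv3
    by_cases hcase : v ≠ [] ∧ 7 * wt o.1 (fun _ => 1) v ≤ 6 * o.1.card + 1
    · refine ⟨v, hv, hcase.1, ?_⟩
      rw [if_pos h15]
      have h1 := hup v
      rw [hwt] at hv2 hcase
      exact ⟨by omega, hcase.2⟩
    · have h1 : 6 * o.1.card + 2 ≤ 7 * wt o.1 (fun _ => 1) v ∨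
          wt o.1 (fun _ => 1) v = o.1.card := by
        by_cases h2 : v = []
        · right; rw [h2]; exact hW
        · left
          by_contra h3
          exact hcase ⟨h2, by omega⟩
      obtain ⟨c, hc, hc0, hc1, hc2⟩ := hv3 (by rcases h1 with h1 | h1 <;> omega)
      refine ⟨c, hc, hc0, ?_⟩
      rw [if_pos h15]
      have h2 := hup c
      rw [hwt c] at hc1 hc2
      rcases h1 with h1 | h1 <;> constructor <;> omega
  · have hc15 := ho.card
    have he : o.2.card = 15 := by omega
    have hwt : ∀ b, wt o.1 (fun u => if u ∈ o.2 then 1 else 0) b =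
        (o.2.filter (fun u => b <:+ u)).card := by
      intro b
      unfold wt
      rw [← Finset.sum_filter, Finset.sum_const, smul_eq_mul, mul_one]
      congr 1
      ext u
      simp only [Finset.mem_filter]
      constructor
      · rintro ⟨⟨_, h1⟩, h2⟩; exact ⟨h2, h1⟩
      · rintro ⟨h1, h2⟩; exact ⟨⟨ho.sub h1, h2⟩, h1⟩
    have hW : wt o.1 (fun u => if u ∈ o.2 then 1 else 0) [] = 15 := by
      rw [hwt, Finset.filter_true_of_mem (fun u _ => List.nil_suffix), he]
    have hup2 : ∀ b, (up o b).2.card + wt o.1 (fun u => if u ∈ o.2 then 1 else 0) b ≤ 16 := by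
      intro b
      rw [hwt]
      have h1 : (up o b).2.card ≤ (o.2.filter (fun w => ¬ b <:+ w)).card + 1 :=
        Finset.card_insert_le _ _
      have h2 := Finset.card_filter_add_card_filter_not (s := o.2) (fun w => b <:+ w)
      omega
    have hlow2 : ∀ b, (low o b).2.card ≤ wt o.1 (fun u => if u ∈ o.2 then 1 else 0) b + 1 := by
      intro b
      rw [hwt, ← card_below]
      exact Finset.card_insert_le _ _
    obtain ⟨v, hv, hv2, hv3⟩ := balanced ho.tr (fun u => if u ∈ o.2 then 1 else 0)
      (by rw [hW]; omega)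
    rw [hW] at hv2 hv3
    have hf : (if v ∈ o.2 then 1 else 0) ≤ 1 := by split_ifs <;> omega
    by_cases hcase : v ≠ [] ∧ wt o.1 (fun u => if u ∈ o.2 then 1 else 0) v ≤ 13
    · refine ⟨v, hv, hcase.1, ?_⟩
      rw [if_neg h15]
      have h1 := hup2 v
      have h2 := hlow2 v
      exact ⟨by omega, by omega⟩
    · have h1 : 14 ≤ wt o.1 (fun u => if u ∈ o.2 then 1 else 0) v := by
        by_cases h2 : v = []
        · rw [h2, hW]; omega
        · by_contra h3
          exact hcase ⟨h2, by omega⟩
      obtain ⟨c, hc, hc0, hc1, hc2⟩ := hv3 (by omega)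
      refine ⟨c, hc, hc0, ?_⟩
      rw [if_neg h15]
      have h2 := hup2 c
      have h3 := hlow2 c
      exact ⟨by omega, by omega⟩

end Pool.Agent.W976.LT
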