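import Pool.Agent.W955.LT.Stm

/-!
# Lattice trees: the height of the decomposition is logarithmic
-/

set_option autoImplicit false

namespace Pool.Agent.W976.LT

open Pool.Agent.W955.LT

theorem lev_le_one {m : ℕ} (h : m ≤ 1) : lev m = 0 := by
  rw [lev, dif_pos h]

theorem lev_succ {m : ℕ} (h : 2 ≤ m) : lev m = 1 + lev ((6 * m + 1) / 7) := by
  rw [lev, dif_neg (by omega)]

theorem lev_main : S_lev := by
  intro m
  induction m using Nat.strong_induction_on with
  | _ m ih =>
    intro hm
    by_cases h1 : m ≤ 1
    · obtain rfl : m = 1 := by omega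
      rw [lev_le_one le_rfl]
      norm_num
    · have h2 : 2 ≤ m := by omega
      rw [lev_succ h2, pow_add, pow_one]
      have h3 := ih ((6 * m + 1) / 7) (by omega) (by omega)
      refine (Nat.mul_le_mul_left 2 h3).trans ?_
      by_cases h4 : m < 5
      · interval_cases m <;> norm_num
      · have h5 : 35 * ((6 * m + 1) / 7) ≤ 31 * m := by omega
        have h6 := Nat.pow_le_pow_left h5 6
        rw [mul_pow, mul_pow] at h6
        norm_num at h6
        omega

theorem lev_mono {m n : ℕ} (h : m ≤ n) : lev m ≤ lev n := by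
  induction n using Nat.strong_induction_on generalizing m with
  | _ n ih =>
    by_cases h1 : m ≤ 1
    · rw [lev_le_one h1]; exact Nat.zero_le _
    · rw [lev_succ (m := m) (by omega), lev_succ (m := n) (by omega)]
      exact Nat.add_le_add_left (ih _ (by omega) (by omega)) 1

theorem ht_none (r : ℕ) : Ht r none := by
  cases r <;> trivial

theorem ht_all (hK : S_kids) (k : Kind) (n : ℕ) : ∀ o : Obj, Ok k o → o.1.card = n →
    ∀ r, 2 * lev n + (if o.2.card = 15 then 1 else 0) ≤ r → Ht r (some o) := by
  obtain ⟨_, _, _, _, hkids, hpt, _, hkpt⟩ := hK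
  induction n using Nat.strong_induction_on with
  | _ n ih =>
    intro o ho hn r hr
    have hpos : 1 ≤ n := by
      rw [← hn]
      exact Finset.card_pos.2 ⟨[], ho.tr.nil⟩
    by_cases h1 : n = 1
    · have h2 := hpt k o ho (by omega)
      subst h2
      cases r with
      | zero => show pt.1.card = 1; omega
      | succ r =>
        show Ht r (kids pt).1 ∧ Ht r (kids pt).2
        rw [hkpt]
        exact ⟨ht_none r, ht_none r⟩
    · have hl := lev_succ (m := n) (by omega)
      obtain ⟨r, rfl⟩ : ∃ r', r = r' + 1 := ⟨r - 1, by omega⟩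
      show Ht r (kids o).1 ∧ Ht r (kids o).2
      rcases hkids k o ho with h2 | ⟨b, hb, h2, h3, h4, h5, h6, h7⟩
      · rw [h2]
        exact ⟨ht_none r, ht_none r⟩
      · rw [h2]
        obtain ⟨_, _, hg⟩ := hb.1
        have hc := ho.card
        have key : ∀ x : Obj, Ok k x → x.1.card < n → (o.2.card < 15 →
            7 * x.1.card ≤ 6 * n + 1) → (¬ o.2.card < 15 → x.2.card < 15) → Ht r (some x) := by
          intro x hx hxn hx1 hx2
          refine ih x.1.card hxn x hx rfl r ?_
          by_cases h8 : o.2.card < 15
          · have h9 := lev_mono (m := x.1.card) (n := (6 * n + 1) / 7) (by have := hx1 h8; omega)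
            have h10 : (if x.2.card = 15 then 1 else 0) ≤ 1 := by split_ifs <;> omega
            omega
          · have h9 := lev_mono hxn.le
            have h10 := hx2 h8
            rw [if_neg (by omega)]
            rw [if_pos (by omega)] at hr
            omega
        rw [← hn] at *
        refine ⟨key _ h3 (by omega) ?_ ?_, key _ h4 (by omega) ?_ ?_⟩
        · intro h8; rw [if_pos h8] at hg; exact hg.1
        · intro h8; rw [if_neg h8] at hg; exact hg.1
        · intro h8; rw [if_pos h8] at hg; exact hg.2
        · intro h8; rw [if_neg h8] at hg; exact hg.2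

theorem height_main (hK : S_kids) (_ : S_good) : S_height := by
  intro k o ho h1
  have hall := ht_all hK k
  obtain ⟨_, _, _, _, hkids, hpt, _, hkpt⟩ := hK
  have hpos : 1 ≤ o.1.card := Finset.card_pos.2 ⟨[], ho.tr.nil⟩
  by_cases h0 : o.1.card = 1
  · rw [hpt k o ho h0, hkpt]
    exact ⟨ht_none _, ht_none _⟩
  · have hl := lev_succ (m := o.1.card) (by omega)
    rcases hkids k o ho with h2 | ⟨b, hb, h2, h3, h4, h5, h6, h7⟩
    · rw [h2]
      exact ⟨ht_none _, ht_none _⟩
    · rw [h2]
      obtain ⟨_, _, hg⟩ := hb.1
      have hc : o.2.card < 15 := by rw [h1]; simp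
      rw [if_pos hc] at hg
      have key : ∀ x : Obj, Ok k x → 7 * x.1.card ≤ 6 * o.1.card + 1 →
          Ht (2 * lev o.1.card) (some x) := by
        intro x hx hx1
        refine hall x.1.card x hx rfl _ ?_
        have h9 := lev_mono (m := x.1.card) (n := (6 * o.1.card + 1) / 7) (by omega)
        have h10 : (if x.2.card = 15 then 1 else 0) ≤ 1 := by split_ifs <;> omega
        omega
      exact ⟨key _ h3 hg.1, key _ h4 hg.2⟩

end Pool.Agent.W976.LT
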