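import Pool.Agent.W955.LT.Stm

/-!
# Lattice trees: patterns are realised by disjointly placed objects
-/

set_option autoImplicit false

namespace Pool.Agent.W976.LT

open Pool.Agent.W955.LT Classical

theorem kids_spec {z a b : Obj} (h : kids z = (some a, some b)) :
    ∃ c, isCut z c ∧ a = up z c ∧ b = low z c := by
  unfold kids at h
  split_ifs at h with hc
  · simp only [Prod.mk.injEq, Option.some.injEq] at h
    exact ⟨_, hc.choose_spec, h.1.symm, h.2.symm⟩
  · simp at h

theorem mem_below {A : Finset (List ℕ)} {c w : List ℕ} : w ∈ below A c ↔ w ++ c ∈ A := by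
  unfold below
  rw [Finset.mem_image]
  constructor
  · rintro ⟨v, hv, rfl⟩
    obtain ⟨h1, t, rfl⟩ := Finset.mem_filter.1 hv
    have : (t ++ c).take ((t ++ c).length - c.length) = t := by
      rw [List.length_append, Nat.add_sub_cancel, List.take_left']
      rfl
    rw [this]
    exact h1
  · intro h
    refine ⟨w ++ c, Finset.mem_filter.2 ⟨h, List.suffix_append _ _⟩, ?_⟩
    rw [List.length_append, Nat.add_sub_cancel, List.take_left']
    rfl

theorem mem_up {z : Obj} {c w : List ℕ} : w ∈ (up z c).1 ↔ w ∈ z.1 ∧ ¬ c <:+ w := by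
  unfold up
  rw [Finset.mem_filter]

theorem placed_up {z x : Obj} {c u : List ℕ} (h : Placed (up z c) x u) : Placed z x u := by
  refine ⟨?_, ?_, ?_⟩
  · intro w hw
    exact (mem_up.1 (h.sub w hw)).1
  · intro w hw hm
    refine h.mark w hw ?_
    unfold up
    rw [Finset.mem_insert, Finset.mem_filter]
    exact Or.inr ⟨hm, (mem_up.1 (h.sub w hw)).2⟩
  · intro w hw d hd hx
    have h1 := (mem_up.1 (h.sub w hw)).2
    by_cases h2 : c <:+ d :: (w ++ u)
    · rcases List.suffix_cons_iff.1 h2 with h3 | h3
      · refine h.mark w hw ?_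
        unfold up
        rw [Finset.mem_insert]
        left
        rw [h3]
        rfl
      · exact absurd h3 h1
    · exact h.exit w hw d (mem_up.2 ⟨hd, h2⟩) hx

theorem placed_low {z x : Obj} {c u : List ℕ} (h : Placed (low z c) x u) :
    Placed z x (u ++ c) := by
  refine ⟨?_, ?_, ?_⟩
  · intro w hw
    have h1 : w ++ u ∈ below z.1 c := h.sub w hw
    rw [mem_below] at h1
    rw [← List.append_assoc]
    exact h1
  · intro w hw hm
    refine h.mark w hw ?_
    unfold low
    rw [Finset.mem_insert]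
    right
    rw [mem_below, List.append_assoc]
    exact hm
  · intro w hw d hd hx
    refine h.exit w hw d ?_ hx
    show d :: (w ++ u) ∈ below z.1 c
    rw [mem_below, List.cons_append, List.append_assoc]
    exact hd

/-- disjoint placement -/
def Dj (s t : Obj × List ℕ) : Prop :=
  Disjoint (s.1.1.image (fun w => w ++ s.2)) (t.1.1.image (fun w => w ++ t.2))

theorem placedL_up {z : Obj} {c : List ℕ} {xs : List Obj} {us : List (List ℕ)}
    (h : PlacedL (up z c) xs us) : PlacedL z xs us :=
  ⟨h.1.imp fun _ _ h => placed_up h, h.2⟩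

theorem dj_app {c : List ℕ} {s t : Obj × List ℕ} (h : Dj s t) :
    Dj (s.1, s.2 ++ c) (t.1, t.2 ++ c) := by
  unfold Dj at h ⊢
  rw [Finset.disjoint_left] at h ⊢
  intro v hv hv'
  simp only [Finset.mem_image] at h hv hv'
  obtain ⟨w, hw, rfl⟩ := hv
  obtain ⟨w', hw', h1⟩ := hv'
  rw [← List.append_assoc, ← List.append_assoc] at h1
  exact h ⟨w, hw, rfl⟩ ⟨w', hw', List.append_cancel_right h1⟩

theorem placedL_low {z : Obj} {c : List ℕ} {xs : List Obj} {us : List (List ℕ)}
    (h : PlacedL (low z c) xs us) : PlacedL z xs (us.map (fun u => u ++ c)) := by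
  refine ⟨?_, ?_⟩
  · rw [List.forall₂_map_right_iff]
    exact h.1.imp fun _ _ h => placed_low h
  · rw [List.zip_map_right, List.pairwise_map]
    exact h.2.imp fun h => dj_app h

theorem place : S_place := by
  intro p
  induction p with
  | atom x =>
    intro z hz
    have hz' : z = x := hz
    subst hz'
    refine ⟨[[]], ?_, ?_⟩
    · refine List.Forall₂.cons ?_ List.Forall₂.nil
      refine ⟨?_, ?_, ?_⟩
      · intro w hw; rw [List.append_nil]; exact hw
      · intro w hw hm; rw [List.append_nil] at hm; exact hm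
      · intro w hw d hd hx; rw [List.append_nil] at hd; exact absurd hd hx
    · show List.Pairwise _ [(z, [])]
      exact List.pairwise_singleton _ _
  | left p ih =>
    rintro z ⟨a, b, hab, hp⟩
    obtain ⟨c, _, rfl, _⟩ := kids_spec hab
    obtain ⟨us, h⟩ := ih _ hp
    exact ⟨us, placedL_up h⟩
  | right p ih =>
    rintro z ⟨a, b, hab, hp⟩
    obtain ⟨c, _, _, rfl⟩ := kids_spec hab
    obtain ⟨us, h⟩ := ih _ hp
    exact ⟨_, placedL_low h⟩
  | both p q ihp ihq =>
    rintro z ⟨a, b, hab, hp, hq⟩
    obtain ⟨c, _, rfl, rfl⟩ := kids_spec hab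
    obtain ⟨us, h⟩ := ihp _ hp
    obtain ⟨vs, h'⟩ := ihq _ hq
    refine ⟨us ++ vs.map (fun u => u ++ c), ?_, ?_⟩
    · exact List.rel_append (placedL_up h).1 (placedL_low h').1
    · show ((p.atoms ++ q.atoms).zip (us ++ vs.map (fun u => u ++ c))).Pairwise _
      rw [List.zip_append h.1.length_eq, List.pairwise_append]
      refine ⟨h.2, (placedL_low h').2, ?_⟩
      intro s hs t ht
      rw [List.zip_map_right, List.mem_map] at ht
      obtain ⟨t', ht', rfl⟩ := ht
      have h1 : Placed (up z c) s.1 s.2 := (List.forall₂_iff_zip.1 h.1).2 hs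
      rw [Finset.disjoint_left]
      intro v hv hv'
      rw [Finset.mem_image] at hv hv'
      obtain ⟨w, hw, rfl⟩ := hv
      obtain ⟨w', _, h2⟩ := hv'
      refine (mem_up.1 (h1.sub w hw)).2 ⟨w' ++ t'.2, ?_⟩
      rw [← h2, List.append_assoc]
      rfl

end Pool.Agent.W976.LT
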